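import Mathlib

/-!
# Invariably generated groups: conjugate subgroups, Sylow families
-/

namespace Pool.Agent.H61.IG

variable {G : Type*} [Group G]

/-- the conjugate subgroup `g K g⁻¹` -/
def cj (g : G) (K : Subgroup G) : Subgroup G := K.map (MulAut.conj g).toMonoidHom

theorem mem_cj {g : G} {K : Subgroup G} {x : G} : x ∈ cj g K ↔ g⁻¹ * x * g ∈ K := by
  unfold cj
  constructor
  · rintro ⟨y, hy, rfl⟩
    simpa [MulAut.conj_apply, mul_assoc] using hy
  · intro h
    exact ⟨_, h, by simp [MulAut.conj_apply, mul_assoc]⟩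

theorem cj_one (K : Subgroup G) : cj 1 K = K := by ext x; simp [mem_cj]

theorem cj_mul (g h : G) (K : Subgroup G) : cj (g * h) K = cj g (cj h K) := by
  ext x; simp [mem_cj, mul_assoc]

theorem cj_inv_cj (g : G) (K : Subgroup G) : cj g⁻¹ (cj g K) = K := by
  rw [← cj_mul, inv_mul_cancel, cj_one]

theorem cj_cj_inv (g : G) (K : Subgroup G) : cj g (cj g⁻¹ K) = K := by
  rw [← cj_mul, mul_inv_cancel, cj_one]

theorem cj_mono (g : G) {K L : Subgroup G} (h : K ≤ L) : cj g K ≤ cj g L :=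
  Subgroup.map_mono h

theorem cj_bot (g : G) : cj g (⊥ : Subgroup G) = ⊥ := Subgroup.map_bot _

theorem cj_ne_bot (g : G) {K : Subgroup G} (h : K ≠ ⊥) : cj g K ≠ ⊥ := by
  intro h'
  apply h
  rw [← cj_inv_cj g K, h', cj_bot]

theorem cj_normal (g : G) {N : Subgroup G} (hN : N.Normal) : cj g N = N := by
  ext x
  rw [mem_cj]
  constructor
  · intro h
    have := hN.conj_mem _ h g
    simpa [mul_assoc] using this
  · intro h
    have := hN.conj_mem _ h g⁻¹
    simpa [mul_assoc] using this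

theorem cj_le_iff (g : G) {K L : Subgroup G} : cj g K ≤ L ↔ K ≤ cj g⁻¹ L := by
  constructor
  · intro h
    have := cj_mono g⁻¹ h
    rwa [cj_inv_cj] at this
  · intro h
    have := cj_mono g h
    rwa [cj_cj_inv] at this

/-- an element of `T` conjugates `K ≤ T` ... ; elements commuting with `K` fix `K` -/
theorem cj_eq_of_comm {g : G} {K : Subgroup G} (h : ∀ x ∈ K, g * x = x * g) : cj g K = K := by
  ext x
  rw [mem_cj]
  constructor
  · intro hx
    have h1 := h _ hx
    have h2 : g * (g⁻¹ * x * g) = x * g := by group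
    rw [h2] at h1
    have h3 : x = g⁻¹ * x * g := by
      have := mul_right_cancel h1
      exact this
    rw [h3]; exact hx
  · intro hx
    have h1 := h _ hx
    have : g⁻¹ * x * g = x := by
      rw [mul_assoc, ← h1]; group
    rw [this]; exact hx

theorem cj_self {g : G} {K : Subgroup G} (hg : g ∈ K) : cj g K = K := by
  ext x
  rw [mem_cj]
  constructor
  · intro hx
    have := K.mul_mem (K.mul_mem hg hx) (K.inv_mem hg)
    simpa [mul_assoc] using this
  · intro hx
    exact K.mul_mem (K.mul_mem (K.inv_mem hg) hx) hg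

/-- Any conjugates of `a` and `b` generate `G`. -/
def InvGen (a b : G) : Prop :=
  ∀ g h : G, Subgroup.closure {g⁻¹ * a * g, h⁻¹ * b * h} = ⊤

theorem InvGen.symm {a b : G} (h : InvGen a b) : InvGen b a := by
  intro g k
  rw [Set.pair_comm]
  exact h k g

/-- `T` is a minimal normal subgroup of `N` -/
structure MinN (N T : Subgroup G) : Prop where
  ne_bot : T ≠ ⊥
  le : T ≤ N
  inv : ∀ n ∈ N, cj n T = T
  min : ∀ K : Subgroup G, K ≠ ⊥ → K ≤ T → (∀ n ∈ N, cj n K = K) → K = T

theorem MinN.cj {N T : Subgroup G} (hN : N.Normal) (h : MinN N T) (g : G) : MinN N (cj g T) where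
  ne_bot := cj_ne_bot g h.ne_bot
  le := by
    have := cj_mono g h.le
    rwa [cj_normal g hN] at this
  inv := by
    intro n hn
    have h1 : g⁻¹ * n * g ∈ N := by
      have := hN.conj_mem _ hn g⁻¹
      simpa [mul_assoc] using this
    have h2 := h.inv _ h1
    rw [← cj_mul]
    have h3 : n * g = g * (g⁻¹ * n * g) := by group
    rw [h3, cj_mul, h2]
  min := by
    intro K hK hle hinv
    have h1 : Pool.Agent.H61.IG.cj g⁻¹ K = T := by
      apply h.min
      · exact cj_ne_bot _ hK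
      · have := cj_mono g⁻¹ hle
        rwa [cj_inv_cj] at this
      · intro n hn
        have h1 : g * n * g⁻¹ ∈ N := hN.conj_mem _ hn g
        have h2 := hinv _ h1
        rw [← cj_mul]
        have h3 : n * g⁻¹ = g⁻¹ * (g * n * g⁻¹) := by group
        rw [h3, cj_mul, h2]
    rw [← h1, cj_cj_inv]

theorem MinN.inf {N T T' : Subgroup G} (h : MinN N T) (h' : MinN N T') (hne : T ≠ T') :
    T ⊓ T' = ⊥ := by
  by_contra hb
  have hinv : ∀ n ∈ N, Pool.Agent.H61.IG.cj n (T ⊓ T') = T ⊓ T' := by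
    intro n hn
    ext x
    rw [mem_cj, Subgroup.mem_inf, Subgroup.mem_inf, ← mem_cj, ← mem_cj, h.inv n hn, h'.inv n hn]
  have h1 := h.min _ hb inf_le_left hinv
  have h2 := h'.min _ hb inf_le_right hinv
  exact hne (h1.symm.trans h2)

theorem MinN.comm {N T T' : Subgroup G} (h : MinN N T) (h' : MinN N T') (hne : T ≠ T')
    {x y : G} (hx : x ∈ T) (hy : y ∈ T') : x * y = y * x := by
  have h1 : x * y * x⁻¹ * y⁻¹ ∈ T := by
    have hy1 := h.inv y (h'.le hy)
    have : y⁻¹ * (y * x⁻¹ * y⁻¹) * y ∈ T := by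
      have : y⁻¹ * (y * x⁻¹ * y⁻¹) * y = x⁻¹ := by group
      rw [this]; exact T.inv_mem hx
    rw [← mem_cj, hy1] at this
    have h2 := T.mul_mem hx this
    simpa [mul_assoc] using h2
  have h2 : x * y * x⁻¹ * y⁻¹ ∈ T' := by
    have hx1 := h'.inv x (h.le hx)
    have : x⁻¹ * (x * y * x⁻¹) * x ∈ T' := by
      have : x⁻¹ * (x * y * x⁻¹) * x = y := by group
      rw [this]; exact hy
    rw [← mem_cj, hx1] at this
    exact T'.mul_mem this (T'.inv_mem hy)
  have h3 : x * y * x⁻¹ * y⁻¹ ∈ T ⊓ T' := ⟨h1, h2⟩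
  rw [h.inf h' hne, Subgroup.mem_bot] at h3
  have h4 : x * y * x⁻¹ = y := by
    have := mul_eq_one_iff_eq_inv.1 h3
    simpa using this
  have h5 := congrArg (· * x) h4
  simpa [mul_assoc] using h5

/-- maximal `r`-subgroups of `ω` -/
def Syl (r : ℕ) (ω R : Subgroup G) : Prop :=
  R ≤ ω ∧ IsPGroup r R ∧ ∀ Q : Subgroup G, Q ≤ ω → IsPGroup r Q → R ≤ Q → Q = R

theorem isPGroup_cj {r : ℕ} {R : Subgroup G} (h : IsPGroup r R) (g : G) : IsPGroup r (cj g R) :=
  IsPGroup.map h _

theorem Syl.cj {r : ℕ} {ω R : Subgroup G} (h : Syl r ω R) (g : G) :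
    Syl r (cj g ω) (cj g R) := by
  refine ⟨cj_mono g h.1, isPGroup_cj h.2.1 g, ?_⟩
  intro Q hQ hp hle
  have h1 := h.2.2 (Pool.Agent.H61.IG.cj g⁻¹ Q)
    (by have := cj_mono g⁻¹ hQ; rwa [cj_inv_cj] at this) (isPGroup_cj hp _)
    (by have := cj_mono g⁻¹ hle; rwa [cj_inv_cj] at this)
  rw [← h1, cj_cj_inv]

/-- Sylow subgroups of `ω` as subgroups of `G` -/
def sylEquiv (r : ℕ) (ω : Subgroup G) : Sylow r ω ≃ {R : Subgroup G // Syl r ω R} where
  toFun P := ⟨P.1.map ω.subtype, by
    refine ⟨?_, P.2.map _, ?_⟩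
    · rintro x ⟨y, _, rfl⟩
      exact y.2
    · intro Q hQ hp hle
      have h1 : P.1 ≤ Q.subgroupOf ω := by
        intro x hx
        rw [Subgroup.mem_subgroupOf]
        exact hle ⟨x, hx, rfl⟩
      have h2 : IsPGroup r (Q.subgroupOf ω) :=
        hp.comap_of_injective ω.subtype ω.subtype_injective
      have h3 := P.3 h2 h1
      rw [← h3, Subgroup.subgroupOf_map_subtype, inf_eq_left.2 hQ]⟩
  invFun R := ⟨R.1.subgroupOf ω, R.2.2.1.comap_of_injective ω.subtype ω.subtype_injective, by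
    intro Q hp hle
    have h1 : Q.map ω.subtype = R.1 := by
      apply R.2.2.2
      · rintro x ⟨y, _, rfl⟩
        exact y.2
      · exact hp.map _
      · intro x hx
        have hxω := R.2.1 hx
        exact ⟨⟨x, hxω⟩, hle (by rw [Subgroup.mem_subgroupOf]; exact hx), rfl⟩
    ext x
    rw [Subgroup.mem_subgroupOf, ← h1]
    constructor
    · intro hx; exact ⟨x, hx, rfl⟩
    · rintro ⟨y, hy, hyx⟩
      have : y = x := Subtype.ext hyx
      rwa [← this]⟩
  left_inv P := by
    ext x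
    change x ∈ (P.1.map ω.subtype).subgroupOf ω ↔ x ∈ P.1
    rw [Subgroup.mem_subgroupOf]
    constructor
    · rintro ⟨y, hy, hyx⟩
      have : y = x := Subtype.ext hyx
      rwa [← this]
    · intro hx; exact ⟨x, hx, rfl⟩
  right_inv R := by
    apply Subtype.ext
    change (R.1.subgroupOf ω).map ω.subtype = R.1
    rw [Subgroup.subgroupOf_map_subtype, inf_eq_left.2 R.2.1]

theorem Syl.exists (r : ℕ) [Finite G] (ω : Subgroup G) : ∃ R, Syl r ω R := by
  obtain ⟨P⟩ : Nonempty (Sylow r ω) := inferInstance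
  exact ⟨_, (sylEquiv r ω P).2⟩

theorem Syl.conj {r : ℕ} [hr : Fact r.Prime] [Finite G] {ω R R' : Subgroup G} (h : Syl r ω R)
    (h' : Syl r ω R') : ∃ n ∈ ω, Pool.Agent.H61.IG.cj n R = R' := by
  let P := (sylEquiv r ω).symm ⟨R, h⟩
  let P' := (sylEquiv r ω).symm ⟨R', h'⟩
  obtain ⟨n, hn⟩ := MulAction.exists_smul_eq ω P P'
  refine ⟨n, n.2, ?_⟩
  have hmem : ∀ y : ω, y ∈ P'.1 ↔ n⁻¹ * y * n ∈ P.1 := by
    intro y
    rw [← hn]
    change y ∈ (n • P : Sylow r ω).toSubgroup ↔ _
    rw [Sylow.coe_subgroup_smul, Subgroup.mem_smul_pointwise_iff_exists]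
    constructor
    · rintro ⟨s, hs, rfl⟩
      simpa [MulAut.smul_def, mul_assoc] using hs
    · intro hy
      exact ⟨_, hy, by simp [MulAut.smul_def, mul_assoc]⟩
  ext x
  rw [mem_cj]
  constructor
  · intro hx
    have hxω : x ∈ ω := by
      have h1 : (n : G)⁻¹ * x * n ∈ ω := h.1 hx
      have := ω.mul_mem (ω.mul_mem n.2 h1) (ω.inv_mem n.2)
      simpa [mul_assoc] using this
    have := (hmem ⟨x, hxω⟩).2 (by
      change _ ∈ R.subgroupOf ω
      rw [Subgroup.mem_subgroupOf]
      exact hx)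
    change _ ∈ R'.subgroupOf ω at this
    rw [Subgroup.mem_subgroupOf] at this
    exact this
  · intro hx
    have hxω : x ∈ ω := h'.1 hx
    have := (hmem ⟨x, hxω⟩).1 (by
      change _ ∈ R'.subgroupOf ω
      rw [Subgroup.mem_subgroupOf]
      exact hx)
    change _ ∈ R.subgroupOf ω at this
    rw [Subgroup.mem_subgroupOf] at this
    exact this

end Pool.Agent.H61.IG
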