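import Mathlib

/-!
# MP_c6fb0d_al: alternating and bounded-degree chief factors

If a finite group `G` is invariably generated by elements of prime power orders dividing `e` (for the
question: `a` of order `p`, `b` of order `q`, `e = p q`), then every chief factor of `G` isomorphic
to a direct power of an alternating group `Alt(m)`, `m ≥ 7`, has `m ≤ e`: the conjugation action of
`G` on `Alt(m)^k` comes from an action on `k` blocks of `m` points (`realise`, proved from scratch by
recognising the three-cycles of `Alt(m)^k`); each element of prime power order dividing `e` preserves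
a family of `e`-subsets, one in each block, and all such families are conjugate under `M`. So large
alternating groups do not embed in `G` when the other chief factors are abelian or linear of bounded
degree (commuting elements of order 3 or 5 bound the degree of a linear representation of `Alt(n)`).
-/

open Equiv Function Module

namespace Pool.Agent.H61.IG.Alt

/-- backward invariance -/
theorem bwd {X : Type*} (τ : Perm X) {u : ℕ} (hu : 0 < u) (hτ : τ ^ u = 1) {S : Finset X}
    (hS : ∀ x ∈ S, τ x ∈ S) {x : X} (hx : τ x ∈ S) : x ∈ S := by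
  have h : ∀ (n : ℕ), ∀ y ∈ S, (τ ^ n) y ∈ S := by
    intro n
    induction n with
    | zero => intro y hy; simpa using hy
    | succ n ih => intro y hy; rw [pow_succ', Perm.mul_apply]; exact hS _ (ih y hy)
  have h1 := h (u - 1) _ hx
  have h2 : (τ ^ (u - 1)) (τ x) = x := by
    rw [← Perm.mul_apply, ← pow_succ, Nat.sub_add_cancel hu, hτ]; rfl
  rwa [h2] at h1

theorem zpow_mem {X : Type*} (τ : Perm X) {u : ℕ} (hu : 0 < u) (hτ : τ ^ u = 1) {S : Finset X}
    (hS : ∀ x ∈ S, τ x ∈ S) (j : ℤ) {x : X} (hx : x ∈ S) : (τ ^ j) x ∈ S := by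
  have h : ∀ (n : ℕ), ∀ y ∈ S, (τ ^ n) y ∈ S := by
    intro n
    induction n with
    | zero => intro y hy; simpa using hy
    | succ n ih => intro y hy; rw [pow_succ', Perm.mul_apply]; exact hS _ (ih y hy)
  have h' : ∀ (n : ℕ), ∀ y : X, (τ ^ n) y ∈ S → y ∈ S := by
    intro n
    induction n with
    | zero => intro y hy; simpa using hy
    | succ n ih => intro y hy; rw [pow_succ', Perm.mul_apply] at hy; exact ih y (bwd τ hu hτ hS hy)
  obtain ⟨n, rfl | rfl⟩ := j.eq_nat_or_neg
  · rw [zpow_natCast]; exact h n x hx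
  · apply h' n
    rw [zpow_neg, zpow_natCast, ← Perm.mul_apply, mul_inv_cancel]
    exact hx

/-- invariant subsets of prescribed size inside an invariant set, all of whose orbits have prime
power length dividing the prescribed size: remove the longest orbits first -/
theorem inv_subset {X : Type*} [DecidableEq X] (τ : Perm X) {u p : ℕ} (hu : 0 < u)
    (hτ : τ ^ u = 1) (hp : p.Prime) : ∀ (L : ℕ) (F : Finset X), (∀ x ∈ F, τ x ∈ F) →
    (∀ x ∈ F, ∃ b, minimalPeriod τ x = p ^ b) → (∀ x ∈ F, minimalPeriod τ x ∣ L) →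
    L ≤ F.card → ∃ S ⊆ F, S.card = L ∧ ∀ x ∈ S, τ x ∈ S := by
  have hper : ∀ x, IsPeriodicPt τ u x := by
    intro x
    have : (τ^[u]) x = (τ ^ u) x := by rw [Perm.iterate_eq_pow]
    rw [IsPeriodicPt, IsFixedPt, this, hτ]; rfl
  intro L
  induction L using Nat.strong_induction_on with
  | _ L ih =>
  intro F hF hpp hdvd hcard
  rcases Nat.eq_zero_or_pos L with h0 | hLpos
  · exact ⟨∅, by simp, by simp [h0], by simp⟩
  have hne : F.Nonempty := by rw [← Finset.card_pos]; omega
  obtain ⟨x, hxF, hmax⟩ := Finset.exists_max_image F (minimalPeriod τ) hne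
  obtain ⟨b, hb⟩ := hpp x hxF
  set ℓ := minimalPeriod τ x with hℓ
  have hℓpos : 0 < ℓ := (hper x).minimalPeriod_pos hu
  have hℓL : ℓ ≤ L := Nat.le_of_dvd hLpos (hdvd x hxF)
  set O := (Finset.range ℓ).image (fun i => (τ^[i]) x) with hO
  have hOc : O.card = ℓ := by
    rw [hO, Finset.card_image_of_injOn, Finset.card_range]
    intro i hi i' hi' h
    have := iterate_injOn_Iio_minimalPeriod (f := τ) (x := x)
    apply this _ _ h
    · simpa using hi
    · simpa using hi'
  have hiter : ∀ i : ℕ, ∀ y ∈ F, (τ^[i]) y ∈ F := by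
    intro i
    induction i with
    | zero => intro y hy; simpa using hy
    | succ i ihi => intro y hy; rw [iterate_succ_apply']; exact hF _ (ihi y hy)
  have hOF : O ⊆ F := by
    intro y hy
    rw [hO, Finset.mem_image] at hy
    obtain ⟨i, _, rfl⟩ := hy
    exact hiter i x hxF
  have hOi : ∀ y ∈ O, τ y ∈ O := by
    intro y hy
    rw [hO, Finset.mem_image] at hy ⊢
    obtain ⟨i, hi, rfl⟩ := hy
    rw [Finset.mem_range] at hi
    rcases Nat.lt_or_ge (i + 1) ℓ with h | h
    · exact ⟨i + 1, Finset.mem_range.mpr h, iterate_succ_apply' _ _ _⟩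
    · refine ⟨0, Finset.mem_range.mpr hℓpos, ?_⟩
      have : i.succ = ℓ := by omega
      show (τ^[0]) x = τ ((τ^[i]) x)
      rw [← iterate_succ_apply' (f := τ), this, iterate_zero_apply, hℓ,
        iterate_minimalPeriod]
  obtain ⟨S, hSF, hSc, hSi⟩ := ih (L - ℓ) (by omega) (F \ O)
    (by
      intro y hy
      rw [Finset.mem_sdiff] at hy ⊢
      exact ⟨hF y hy.1, fun h => hy.2 (bwd τ hu hτ hOi h)⟩)
    (fun y hy => hpp y (Finset.mem_sdiff.mp hy).1)
    (by
      intro y hy
      have hyF := (Finset.mem_sdiff.mp hy).1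
      obtain ⟨c, hc⟩ := hpp y hyF
      have h1 : minimalPeriod τ y ∣ ℓ := by
        rw [hc, hb]
        apply Nat.pow_dvd_pow
        have h2 := hmax y hyF
        rw [hc, hb] at h2
        exact (Nat.pow_le_pow_iff_right hp.one_lt).mp h2
      exact Nat.dvd_sub (hdvd y hyF) h1)
    (by rw [Finset.card_sdiff_of_subset hOF, hOc]; omega)
  refine ⟨S ∪ O, Finset.union_subset (hSF.trans Finset.sdiff_subset) hOF, ?_, ?_⟩
  · rw [Finset.card_union_of_disjoint, hSc, hOc]
    · omega
    · exact Finset.disjoint_of_subset_left hSF Finset.sdiff_disjoint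
  · intro y hy
    rw [Finset.mem_union] at hy ⊢
    exact hy.imp (hSi y) (hOi y)

/-- equivariant choice of subsets of prescribed size in every block -/
theorem block_subset {X I : Type*} [Fintype X] [DecidableEq X] [Fintype I] [DecidableEq I]
    (f : X → I) (τ : Perm X) (π : Perm I) (hf : ∀ x, f (τ x) = π (f x)) {u L m p α : ℕ}
    (hp : p.Prime) (hup : u = p ^ α) (hτ : τ ^ u = 1) (hπ : π ^ u = 1) (huL : u ∣ L) (hm : L ≤ m)
    (hfib : ∀ i, (Finset.univ.filter (fun x => f x = i)).card = m) :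
    ∃ S : Finset X, (∀ x ∈ S, τ x ∈ S) ∧ ∀ i, (S.filter (fun x => f x = i)).card = L := by
  classical
  have hu : 0 < u := by rw [hup]; exact pow_pos hp.pos _
  have hfn : ∀ (n : ℕ) x, f ((τ ^ n) x) = (π ^ n) (f x) := by
    intro n
    induction n with
    | zero => intro x; simp
    | succ n ih => intro x; rw [pow_succ', Perm.mul_apply, hf, ih, pow_succ', Perm.mul_apply]
  have hfz : ∀ (j : ℤ) x, f ((τ ^ j) x) = (π ^ j) (f x) := by
    intro j x
    obtain ⟨n, rfl | rfl⟩ := j.eq_nat_or_neg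
    · rw [zpow_natCast, zpow_natCast]; exact hfn n x
    · have h1 := hfn n ((τ ^ (-(n:ℤ))) x)
      rw [← Perm.mul_apply, zpow_neg, zpow_natCast, mul_inv_cancel, Perm.one_apply] at h1
      rw [h1, zpow_neg, zpow_natCast, zpow_neg, zpow_natCast, ← Perm.mul_apply, inv_mul_cancel,
        Perm.one_apply]
  -- periods of blocks
  have hperi : ∀ i, IsPeriodicPt π u i := by
    intro i
    have : (π^[u]) i = (π ^ u) i := by rw [Perm.iterate_eq_pow]
    rw [IsPeriodicPt, IsFixedPt, this, hπ]; rfl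
  have hT : ∀ i, ∃ S ⊆ Finset.univ.filter (fun x => f x = i), S.card = L ∧
      ∀ x ∈ S, (τ ^ (minimalPeriod π i)) x ∈ S := by
    intro i
    have hτu : (τ ^ (minimalPeriod π i)) ^ u = 1 := by
      rw [← pow_mul, mul_comm, pow_mul, hτ, one_pow]
    have hdv : ∀ x, minimalPeriod (τ ^ (minimalPeriod π i) : Perm X) x ∣ u := by
      intro x
      apply IsPeriodicPt.minimalPeriod_dvd
      have : ((τ ^ (minimalPeriod π i) : Perm X)^[u]) x = ((τ ^ (minimalPeriod π i)) ^ u) x := by
        rw [Perm.iterate_eq_pow]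
      rw [IsPeriodicPt, IsFixedPt, this, hτu]; rfl
    apply inv_subset (τ ^ (minimalPeriod π i)) hu hτu hp L _ _ _ _ (by rw [hfib]; exact hm)
    · intro x hx
      rw [Finset.mem_filter] at hx ⊢
      refine ⟨Finset.mem_univ _, ?_⟩
      rw [hfn, hx.2, ← Perm.iterate_eq_pow, iterate_minimalPeriod]
    · intro x _
      obtain ⟨b, _, hb⟩ := (Nat.dvd_prime_pow hp).mp (hup ▸ hdv x)
      exact ⟨b, hb⟩
    · intro x _
      exact (hdv x).trans huL
  choose T hTF hTc hTi using hT
  have hTz : ∀ i (t : ℤ), ∀ x ∈ T i, ((τ ^ (minimalPeriod π i)) ^ t) x ∈ T i := by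
    intro i t x hx
    exact zpow_mem _ hu (by rw [← pow_mul, mul_comm, pow_mul, hτ, one_pow]) (hTi i) t hx
  let r : I → I := fun i => Quotient.out (s := Perm.SameCycle.setoid π) (Quotient.mk _ i)
  have hr : ∀ i, Perm.SameCycle π i (r i) := by
    intro i
    have : (Perm.SameCycle.setoid π).r (r i) i := Quotient.exact (Quotient.out_eq _)
    exact (show Perm.SameCycle π (r i) i from this).symm
  have hrπ : ∀ i, r (π i) = r i := by
    intro i
    show Quotient.out _ = Quotient.out _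
    congr 1
    apply Quotient.sound
    show Perm.SameCycle π (π i) i
    exact (Perm.sameCycle_apply_left).mpr (Perm.SameCycle.refl _ _)
  let S : Finset X := Finset.univ.filter (fun x => ∃ j : ℤ, (τ ^ j) x ∈ T (r (f x)))
  refine ⟨S, ?_, ?_⟩
  · intro x hx
    rw [Finset.mem_filter] at hx ⊢
    obtain ⟨_, j, hj⟩ := hx
    refine ⟨Finset.mem_univ _, j - 1, ?_⟩
    rw [hf, hrπ, ← Perm.mul_apply, zpow_sub_one, inv_mul_cancel_right]
    exact hj
  · intro i
    obtain ⟨l, hl⟩ := hr i
    have hiff : ∀ x, f x = i → (x ∈ S ↔ (τ ^ l) x ∈ T (r i)) := by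
      intro x hx
      constructor
      · intro h
        obtain ⟨_, j, hj⟩ := Finset.mem_filter.mp h
        rw [hx] at hj
        have h1 : (π ^ j) i = r i := by
          have := (Finset.mem_filter.mp (hTF _ hj)).2
          rw [hfz, hx] at this
          exact this
        have h2 : (π ^ (l - j)) (r i) = r i := by
          rw [zpow_sub, Perm.mul_apply]
          conv_lhs => rw [← h1]
          rw [← Perm.mul_apply (π ^ j)⁻¹, inv_mul_cancel, Perm.one_apply, hl]
        have h3 : ((minimalPeriod π (r i) : ℕ) : ℤ) ∣ (l - j) := by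
          have := (MulAction.zpow_smul_eq_iff_minimalPeriod_dvd (a := π) (b := r i)
            (n := l - j)).mp h2
          exact this
        obtain ⟨t, ht⟩ := h3
        have h4 := hTz (r i) t _ hj
        rw [← Perm.mul_apply, ← zpow_natCast, ← zpow_mul, ← ht, ← zpow_add,
          sub_add_cancel] at h4
        exact h4
      · intro h
        refine Finset.mem_filter.mpr ⟨Finset.mem_univ _, l, ?_⟩
        rw [hx]; exact h
    rw [← hTc (r i)]
    apply Finset.card_bij (fun x _ => (τ ^ l) x)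
    · intro x hx
      rw [Finset.mem_filter] at hx
      exact (hiff x hx.2).mp hx.1
    · intro x _ y _ h
      exact (τ ^ l).injective h
    · intro y hy
      refine ⟨(τ ^ l)⁻¹ y, ?_, by rw [← Perm.mul_apply, mul_inv_cancel, Perm.one_apply]⟩
      have hfy : f ((τ ^ l)⁻¹ y) = i := by
        rw [← zpow_neg, hfz, (Finset.mem_filter.mp (hTF _ hy)).2, ← hl, ← Perm.mul_apply,
          ← zpow_add, neg_add_cancel, zpow_zero, Perm.one_apply]
      rw [Finset.mem_filter]
      refine ⟨(hiff _ hfy).mpr ?_, hfy⟩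
      rw [← Perm.mul_apply, mul_inv_cancel, Perm.one_apply]; exact hy


/-- the alternating group is transitive on subsets of a given size at least two -/
theorem alt_homog {m : ℕ} (s t : Finset (Fin m)) (h : s.card = t.card) (h2 : 2 ≤ s.card) :
    ∃ σ : alternatingGroup (Fin m), ∀ x, x ∈ s ↔ (σ : Perm (Fin m)) x ∈ t := by
  classical
  let e : {x // x ∈ s} ≃ {x // x ∈ t} := Finset.equivOfCardEq h
  let σ₀ : Perm (Fin m) := e.extendSubtype
  have h0 : ∀ x, x ∈ s ↔ σ₀ x ∈ t := by
    intro x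
    constructor
    · intro hx; exact e.extendSubtype_mem x hx
    · intro hx
      by_contra hxs
      exact e.extendSubtype_not_mem x hxs hx
  rcases Int.units_eq_one_or (Perm.sign σ₀) with hs | hs
  · exact ⟨⟨σ₀, Perm.mem_alternatingGroup.mpr hs⟩, h0⟩
  · obtain ⟨x, hx, y, hy, hxy⟩ := Finset.one_lt_card.mp (by omega : 1 < s.card)
    refine ⟨⟨σ₀ * Equiv.swap x y, Perm.mem_alternatingGroup.mpr ?_⟩, ?_⟩
    · rw [Perm.sign_mul, hs, Perm.sign_swap hxy]; rfl
    · intro z
      show z ∈ s ↔ (σ₀ * Equiv.swap x y) z ∈ t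
      rw [Perm.mul_apply, ← h0]
      by_cases hzx : z = x
      · subst hzx; simp [hx, hy]
      · by_cases hzy : z = y
        · subst hzy; simp [hx, hy]
        · rw [Equiv.swap_apply_of_ne_of_ne hzx hzy]


theorem pow_apply_aux {K V : Type*} [Field K] [AddCommGroup V] [Module K V] (x : End K V)
    (ζ : K) {v w : V} (hv : x v = ζ • v + w) (hw : x w = ζ • w) (j : ℕ) :
    (x ^ (j + 1)) v = ζ ^ (j + 1) • v + ((j + 1 : ℕ) : K) • (ζ ^ j • w) := by
  induction j with
  | zero => simp [hv]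
  | succ j ih =>
    rw [pow_succ', Module.End.mul_apply, ih, map_add, map_smul, map_smul, map_smul, hv, hw]
    push_cast
    module

theorem disj {K V : Type*} [Field K] [AddCommGroup V] [Module K V] (x : End K V) {r : ℕ}
    (hr : (r : K) ≠ 0) (hx : x ^ r = 1) (ζ : K) (hζ : ζ ^ r = 1) :
    Disjoint (LinearMap.ker (x - algebraMap K (End K V) ζ))
      (LinearMap.range (x - algebraMap K (End K V) ζ)) := by
  rw [Submodule.disjoint_def]
  intro w hw hw'
  obtain ⟨v, hv⟩ := hw'
  rw [LinearMap.mem_ker, LinearMap.sub_apply, Module.algebraMap_end_apply, sub_eq_zero] at hw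
  rw [LinearMap.sub_apply, Module.algebraMap_end_apply, sub_eq_iff_eq_add'] at hv
  have hr0 : r ≠ 0 := by rintro rfl; simp at hr
  obtain ⟨j, rfl⟩ := Nat.exists_eq_succ_of_ne_zero hr0
  have h := pow_apply_aux x ζ hv hw j
  rw [Nat.succ_eq_add_one] at hx hζ hr
  rw [hx, hζ, Module.End.one_apply, one_smul] at h
  have h2 : ((j + 1 : ℕ) : K) • (ζ ^ j • w) = 0 := by
    have := h.symm
    rwa [add_eq_left] at this
  rw [smul_eq_zero, smul_eq_zero] at h2
  rcases h2 with h2 | h2 | h2
  · exact absurd h2 hr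
  · exfalso
    have hζ0 : ζ ≠ 0 := by rintro rfl; simp at hζ
    exact pow_ne_zero _ hζ0 h2
  · exact h2

/-- a finite set of commuting endomorphisms of exponent `r`, over an algebraically closed
field of characteristic prime to `r`, has at most `r ^ dim V` elements -/
theorem card_le {K : Type*} [Field K] [IsAlgClosed K] {r : ℕ} (hr : (r : K) ≠ 0) :
    ∀ (d : ℕ) (V : Type) [AddCommGroup V] [Module K V] [FiniteDimensional K V],
      finrank K V = d → ∀ S : Finset (End K V), (∀ x ∈ S, ∀ y ∈ S, x * y = y * x) →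
      (∀ x ∈ S, x ^ r = 1) → S.card ≤ r ^ d := by
  classical
  have hr0 : 0 < r := by
    rcases Nat.eq_zero_or_pos r with h | h
    · subst h; simp at hr
    · exact h
  intro d
  induction d using Nat.strong_induction_on with
  | _ d ih =>
  intro V _ _ _ hd S hcomm hpow
  by_cases hsc : ∀ x ∈ S, ∃ c : K, x = algebraMap K (End K V) c
  · rcases Nat.eq_zero_or_pos d with h0 | hdpos
    · subst h0
      have : Subsingleton V := Module.finrank_zero_iff.mp hd
      have : S.card ≤ 1 := Finset.card_le_one.mpr fun x _ y _ => Subsingleton.elim _ _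
      simpa using this
    · have : Nontrivial V := Module.nontrivial_of_finrank_pos (R := K) (by omega)
      have hinj : Function.Injective (algebraMap K (End K V)) := FaithfulSMul.algebraMap_injective _ _
      have hsub : S ⊆ ((Polynomial.nthRoots r (1 : K)).toFinset.image (algebraMap K (End K V))) := by
        intro x hx
        obtain ⟨c, rfl⟩ := hsc x hx
        refine Finset.mem_image.mpr ⟨c, ?_, rfl⟩
        rw [Multiset.mem_toFinset, Polynomial.mem_nthRoots hr0]
        apply hinj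
        rw [map_pow, hpow _ hx, map_one]
      calc S.card ≤ _ := Finset.card_le_card hsub
        _ ≤ (Polynomial.nthRoots r (1 : K)).toFinset.card := Finset.card_image_le
        _ ≤ Multiset.card (Polynomial.nthRoots r (1 : K)) := Multiset.toFinset_card_le _
        _ ≤ r := Polynomial.card_nthRoots r 1
        _ = r ^ 1 := (pow_one r).symm
        _ ≤ r ^ d := Nat.pow_le_pow_right hr0 hdpos
  · push Not at hsc
    obtain ⟨x, hxS, hxc⟩ := hsc
    have : Nontrivial V := by
      by_contra hcon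
      rw [not_nontrivial_iff_subsingleton] at hcon
      exact hxc 0 (Subsingleton.elim _ _)
    obtain ⟨ζ, hζ⟩ := Module.End.exists_eigenvalue x
    obtain ⟨v, hv⟩ := hζ.exists_hasEigenvector
    have hxv : x v = ζ • v := hv.apply_eq_smul
    have hv0 : v ≠ 0 := hv.2
    have hζr : ζ ^ r = 1 := by
      have h1 : ∀ j : ℕ, (x ^ j) v = ζ ^ j • v := by
        intro j
        induction j with
        | zero => simp
        | succ j ihj => rw [pow_succ', Module.End.mul_apply, ihj, map_smul, hxv, smul_smul, pow_succ]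
      have h2 := h1 r
      rw [hpow x hxS, Module.End.one_apply] at h2
      have h3 : (ζ ^ r - 1) • v = 0 := by rw [sub_smul, one_smul, ← h2, sub_self]
      rcases smul_eq_zero.mp h3 with h | h
      · exact sub_eq_zero.mp h
      · exact absurd h hv0
    set y := x - algebraMap K (End K V) ζ with hy
    set E := LinearMap.ker y with hE
    set C := LinearMap.range y with hC
    have hdisj : Disjoint E C := disj x hr (hpow x hxS) ζ hζr
    have hrank : finrank K C + finrank K E = finrank K V := LinearMap.finrank_range_add_finrank_ker y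
    have hEpos : 0 < finrank K E := by
      rw [Module.finrank_pos_iff]
      refine ⟨⟨⟨v, ?_⟩, 0, ?_⟩⟩
      · rw [hE, LinearMap.mem_ker, hy, LinearMap.sub_apply, Module.algebraMap_end_apply, hxv,
          sub_self]
      · intro h; exact hv0 (congrArg Subtype.val h)
    have hCpos : 0 < finrank K C := by
      rw [Nat.pos_iff_ne_zero]
      intro h0
      have : C = ⊥ := Submodule.finrank_eq_zero.mp h0
      rw [hC, LinearMap.range_eq_bot] at this
      exact hxc ζ (sub_eq_zero.mp this)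
    have hsup : E ⊔ C = ⊤ := by
      apply Submodule.eq_top_of_finrank_eq
      have h1 := Submodule.finrank_sup_add_finrank_inf_eq E C
      rw [hdisj.eq_bot, finrank_bot] at h1
      omega
    have hcy : ∀ z ∈ S, z * y = y * z := by
      intro z hz
      rw [hy, mul_sub, sub_mul, hcomm z hz x hxS, Algebra.commutes]
    have hEm : ∀ z ∈ S, ∀ w ∈ E, z w ∈ E := by
      intro z hz w hw
      rw [hE, LinearMap.mem_ker] at hw ⊢
      rw [← Module.End.mul_apply, ← hcy z hz, Module.End.mul_apply, hw, map_zero]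
    have hCm : ∀ z ∈ S, ∀ w ∈ C, z w ∈ C := by
      rintro z hz w ⟨u, rfl⟩
      exact ⟨z u, by rw [← Module.End.mul_apply, ← hcy z hz, Module.End.mul_apply]⟩
    -- restriction to an invariant subspace
    have hrestr : ∀ W : Submodule K V, ∀ hW : (∀ z ∈ S, ∀ w ∈ W, z w ∈ W), finrank K W < d →
        (S.attach.image (fun z : {z // z ∈ S} =>
          (LinearMap.restrict z.1 (hW z.1 z.2) : End K W))).card ≤ r ^ finrank K W := by
      intro W hW hlt
      apply ih (finrank K W) hlt W rfl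
      · intro z hz z' hz'
        rw [Finset.mem_image] at hz hz'
        obtain ⟨⟨z, hzS⟩, -, rfl⟩ := hz
        obtain ⟨⟨z', hzS'⟩, -, rfl⟩ := hz'
        ext w
        show z (z' w) = z' (z w)
        rw [← Module.End.mul_apply, hcomm z hzS z' hzS', Module.End.mul_apply]
      · intro z hz
        rw [Finset.mem_image] at hz
        obtain ⟨⟨z, hzS⟩, -, rfl⟩ := hz
        have h1 : ∀ (j : ℕ) (w : W), ((((LinearMap.restrict z (hW z hzS) : End K W)) ^ j) w : V) =
            (z ^ j) (w : V) := by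
          intro j
          induction j with
          | zero => intro w; rfl
          | succ j ihj =>
            intro w
            rw [pow_succ', Module.End.mul_apply, pow_succ', Module.End.mul_apply, ← ihj w]
            rfl
        ext w
        rw [h1, hpow z hzS]
        rfl
    have h1 := hrestr E hEm (by omega)
    have h2 := hrestr C hCm (by omega)
    have h3 : S.attach.card ≤ ((S.attach.image (fun z : {z // z ∈ S} =>
        (LinearMap.restrict z.1 (hEm z.1 z.2) : End K E))) ×ˢ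
        (S.attach.image (fun z : {z // z ∈ S} =>
          (LinearMap.restrict z.1 (hCm z.1 z.2) : End K C)))).card := by
      apply Finset.card_le_card_of_injOn (fun z => ((LinearMap.restrict z.1 (hEm z.1 z.2) : End K E),
        (LinearMap.restrict z.1 (hCm z.1 z.2) : End K C)))
      · intro z hz
        rw [Finset.mem_coe, Finset.mem_product]
        exact ⟨Finset.mem_image_of_mem _ hz, Finset.mem_image_of_mem _ hz⟩
      · intro z _ z' _ h
        have hE' := (Prod.ext_iff.mp h).1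
        have hC' := (Prod.ext_iff.mp h).2
        simp only at hE' hC'
        apply Subtype.ext
        apply LinearMap.ext
        intro w
        have hw : w ∈ E ⊔ C := by rw [hsup]; trivial
        obtain ⟨a, ha, b, hb, rfl⟩ := Submodule.mem_sup.mp hw
        have e1 : z.1 a = z'.1 a := congrArg Subtype.val (LinearMap.congr_fun hE' ⟨a, ha⟩)
        have e2 : z.1 b = z'.1 b := congrArg Subtype.val (LinearMap.congr_fun hC' ⟨b, hb⟩)
        rw [map_add, map_add, e1, e2]
    rw [Finset.card_attach, Finset.card_product] at h3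
    calc S.card ≤ _ := h3
      _ ≤ r ^ finrank K E * r ^ finrank K C := Nat.mul_le_mul h1 h2
      _ = r ^ d := by rw [← pow_add]; congr 1; omega



theorem comm_set_aux (C : Type) [CommGroup C] [Fintype C] {n r s : ℕ} (hC : Fintype.card C = r)
    (hodd : Odd r) (hn : r * s ≤ n) :
    ∃ S : Finset (alternatingGroup (Fin n)), S.card = r ^ s ∧
      (∀ x ∈ S, ∀ y ∈ S, x * y = y * x) ∧ ∀ x ∈ S, x ^ r = 1 := by
  classical
  have hle : Fintype.card (Σ _ : Fin s, C) ≤ Fintype.card (Fin n) := by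
    rw [Fintype.card_sigma, Finset.sum_const, hC, Finset.card_univ, Fintype.card_fin,
      Fintype.card_fin, smul_eq_mul, mul_comm]
    exact hn
  obtain ⟨ι⟩ := Function.Embedding.nonempty_of_card_le hle
  let Θ : (Fin s → C) →* Perm (Fin n) :=
    (Perm.viaEmbeddingHom ι).comp ((Perm.sigmaCongrRightHom (fun _ : Fin s => C)).comp
      ((MulAction.toPermHom C C).compLeft (Fin s)))
  have hΘ : Function.Injective Θ := by
    apply (Perm.viaEmbeddingHom_injective ι).comp
    apply (Perm.sigmaCongrRightHom_injective).comp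
    intro c c' h
    funext i
    exact MulAction.toPerm_injective (congrFun h i)
  have hpow : ∀ c : Fin s → C, c ^ r = 1 := by
    intro c
    funext i
    rw [Pi.pow_apply, Pi.one_apply, ← hC]
    exact pow_card_eq_one
  have heven : ∀ c, Θ c ∈ alternatingGroup (Fin n) := by
    intro c
    rw [Perm.mem_alternatingGroup]
    have h1 : Perm.sign (Θ c) ^ r = 1 := by
      rw [← map_pow, ← map_pow, hpow, map_one, map_one]
    rcases Int.units_eq_one_or (Perm.sign (Θ c)) with h | h
    · exact h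
    · rw [h, hodd.neg_one_pow] at h1
      exact absurd h1 (by decide)
  refine ⟨Finset.univ.image (fun c => (⟨Θ c, heven c⟩ : alternatingGroup (Fin n))), ?_, ?_, ?_⟩
  · rw [Finset.card_image_of_injective _ (fun c c' h => hΘ (congrArg Subtype.val h)),
      Finset.card_univ, Fintype.card_fun, hC, Fintype.card_fin]
  · intro x hx y hy
    obtain ⟨c, -, rfl⟩ := Finset.mem_image.mp hx
    obtain ⟨c', -, rfl⟩ := Finset.mem_image.mp hy
    apply Subtype.ext
    show Θ c * Θ c' = Θ c' * Θ c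
    rw [← map_mul, ← map_mul, mul_comm]
  · intro x hx
    obtain ⟨c, -, rfl⟩ := Finset.mem_image.mp hx
    apply Subtype.ext
    show (Θ c) ^ r = 1
    rw [← map_pow, hpow, map_one]


theorem comm_set {n r s : ℕ} (hr : 0 < r) (hodd : Odd r) (hn : r * s ≤ n) :
    ∃ S : Finset (alternatingGroup (Fin n)), S.card = r ^ s ∧
      (∀ x ∈ S, ∀ y ∈ S, x * y = y * x) ∧ ∀ x ∈ S, x ^ r = 1 := by
  have : NeZero r := ⟨hr.ne'⟩
  exact comm_set_aux (Multiplicative (ZMod r)) (by simp [ZMod.card]) hodd hn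


theorem degree_bound {n r s D : ℕ} {F : Type} [Field F] (hr : (r : F) ≠ 0) (hodd : Odd r)
    (hr2 : 2 ≤ r) (hn : r * s ≤ n) (ψ : alternatingGroup (Fin n) →* GL (Fin D) F)
    (hψ : Function.Injective ψ) : s ≤ D := by
  classical
  let K := AlgebraicClosure F
  obtain ⟨S, hSc, hScomm, hSpow⟩ := comm_set (n := n) (r := r) (s := s) (by omega) hodd hn
  let Ψ : alternatingGroup (Fin n) →* End K (Fin D → K) :=
    ((Matrix.toLinAlgEquiv' (R := K) (n := Fin D)).toAlgHom.toRingHom.toMonoidHom).comp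
      ((((algebraMap F K).mapMatrix (m := Fin D)).toMonoidHom).comp
        ((Units.coeHom (Matrix (Fin D) (Fin D) F)).comp ψ))
  have hΨ : Function.Injective Ψ := by
    apply (Matrix.toLinAlgEquiv' (R := K) (n := Fin D)).injective.comp
    have h1 : Function.Injective ((algebraMap F K).mapMatrix (m := Fin D)) := by
      intro A B h
      exact Matrix.map_injective (algebraMap F K).injective h
    apply h1.comp
    exact Units.val_injective.comp hψ
  have h := card_le (K := K) (r := r) (by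
      intro h0
      apply hr
      apply (algebraMap F K).injective
      rw [map_natCast, h0, map_zero]) D (Fin D → K) (by simp) (S.image Ψ)
    (by
      intro x hx y hy
      obtain ⟨c, hc, rfl⟩ := Finset.mem_image.mp hx
      obtain ⟨c', hc', rfl⟩ := Finset.mem_image.mp hy
      rw [← map_mul, ← map_mul, hScomm c hc c' hc'])
    (by
      intro x hx
      obtain ⟨c, hc, rfl⟩ := Finset.mem_image.mp hx
      rw [← map_pow, hSpow c hc, map_one])
  rw [Finset.card_image_of_injective _ hΨ, hSc] at h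
  exact (Nat.pow_le_pow_iff_right (by omega)).mp h

theorem no_embed {n D : ℕ} {F : Type} [Field F] (hn : 5 * (D + 1) ≤ n)
    (ψ : alternatingGroup (Fin n) →* GL (Fin D) F) : ¬ Function.Injective ψ := by
  intro hψ
  by_cases h3 : ((3 : ℕ) : F) = 0
  · have h5 : ((5 : ℕ) : F) ≠ 0 := by
      intro h5
      have : (1 : F) = 0 := by
        have : (1 : F) = 2 * ((3 : ℕ) : F) - ((5 : ℕ) : F) := by push_cast; ring
        rw [this, h3, h5]; ring
      exact one_ne_zero this
    have := degree_bound (s := D + 1) h5 (by decide) (by norm_num) (by omega) ψ hψ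
    omega
  · have := degree_bound (s := D + 1) h3 (by decide) (by norm_num) (by omega) ψ hψ
    omega

/-! ### Automorphisms of `Alt(m) ^ k` -/

/-- the cycle a → b → c → a -/
def cyc {X : Type*} [DecidableEq X] (a b c : X) : Perm X := swap a b * swap b c

section
variable {X : Type*} [DecidableEq X] {a b c : X}

theorem cyc_a (hab : a ≠ b) (hac : a ≠ c) : cyc a b c a = b := by
  rw [cyc, Perm.mul_apply, swap_apply_of_ne_of_ne hab hac, swap_apply_left]

theorem cyc_b (hac : a ≠ c) (hbc : b ≠ c) : cyc a b c b = c := by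
  rw [cyc, Perm.mul_apply, swap_apply_left, swap_apply_of_ne_of_ne hac.symm hbc.symm]

theorem cyc_c : cyc a b c c = a := by
  rw [cyc, Perm.mul_apply, swap_apply_right, swap_apply_right]

theorem cyc_o {x : X} (ha : x ≠ a) (hb : x ≠ b) (hc : x ≠ c) : cyc a b c x = x := by
  rw [cyc, Perm.mul_apply, swap_apply_of_ne_of_ne hb hc, swap_apply_of_ne_of_ne ha hb]

theorem conj_cyc (ρ : Perm X) : ρ * cyc a b c * ρ⁻¹ = cyc (ρ a) (ρ b) (ρ c) := by
  rw [cyc, cyc, swap_apply_apply, swap_apply_apply]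
  group

/-- three-cycles, intrinsically -/
def Is3 (t : Perm X) : Prop :=
  (∀ a, t (t (t a)) = a) ∧ (∃ a, t a ≠ a) ∧
    ∀ a b, t a ≠ a → t b ≠ b → b = a ∨ b = t a ∨ b = t (t a)

theorem is3_cyc (hab : a ≠ b) (hac : a ≠ c) (hbc : b ≠ c) : Is3 (cyc a b c) := by
  refine ⟨fun x => ?_, ⟨a, by rw [cyc_a hab hac]; exact hab.symm⟩, fun x y hx hy => ?_⟩
  · by_cases h1 : x = a
    · rw [h1, cyc_a hab hac, cyc_b hac hbc, cyc_c]
    by_cases h2 : x = b
    · rw [h2, cyc_b hac hbc, cyc_c, cyc_a hab hac]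
    by_cases h3 : x = c
    · rw [h3, cyc_c, cyc_a hab hac, cyc_b hac hbc]
    rw [cyc_o h1 h2 h3, cyc_o h1 h2 h3, cyc_o h1 h2 h3]
  · have hm : ∀ z, cyc a b c z ≠ z → z = a ∨ z = b ∨ z = c := by
      intro z hz
      by_contra hcon
      push Not at hcon
      exact hz (cyc_o hcon.1 hcon.2.1 hcon.2.2)
    rcases hm x hx with rfl | rfl | rfl
    · rw [cyc_a hab hac, cyc_b hac hbc]; exact hm y hy
    · rw [cyc_b hac hbc, cyc_c]; rcases hm y hy with h | h | h <;> simp [h]
    · rw [cyc_c, cyc_a hab hac]; rcases hm y hy with h | h | h <;> simp [h]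

theorem Is3.eq_cyc {t : Perm X} (ht : Is3 t) {p : X} (hp : t p ≠ p) :
    t = cyc p (t p) (t (t p)) := by
  obtain ⟨h3, -, hm⟩ := ht
  have h1 : p ≠ t p := hp.symm
  have h2 : t p ≠ t (t p) := fun h => h1 (t.injective h)
  have h4 : p ≠ t (t p) := by
    intro h
    have h5 := h3 p
    rw [← h] at h5
    exact hp h5
  ext x
  by_cases hx1 : x = p
  · rw [hx1, cyc_a h1 h4]
  by_cases hx2 : x = t p
  · rw [hx2, cyc_b h4 h2]
  by_cases hx3 : x = t (t p)
  · rw [hx3, cyc_c, h3]
  rw [cyc_o hx1 hx2 hx3]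
  by_contra hx
  rcases hm p x hp hx with h | h | h
  · exact hx1 h
  · exact hx2 h
  · exact hx3 h

omit [DecidableEq X] in
theorem Is3.ne2 {t : Perm X} (ht : Is3 t) {p : X} (hp : t p ≠ p) : t (t p) ≠ p := by
  intro h
  have := ht.1 p
  rw [h] at this
  exact hp this
end

section
variable {X : Type*} [Fintype X] [DecidableEq X]

theorem is3_three {t : Perm X} (ht : Is3 t) : t.IsThreeCycle := by
  obtain ⟨p, hp⟩ := ht.2.1
  rw [ht.eq_cyc hp, cyc, swap_comm p]
  exact Perm.isThreeCycle_swap_mul_swap_same hp (fun h => hp (t.injective h.symm))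
    (ht.ne2 hp).symm

theorem prod_three {s t : Perm X} (hs : Is3 s) (ht : Is3 t) :
    (s * t) ^ 2 = 1 ∨ (s * t) ^ 3 = 1 ∨ (s * t) ^ 5 = 1 := by
  have hs' := is3_three hs
  have ht' := is3_three ht
  by_cases hd : Perm.Disjoint s t
  · right; left
    rw [hd.commute.mul_pow]
    have h1 : s ^ 3 = 1 := by ext x; simp [pow_succ, hs.1]
    have h2 : t ^ 3 = 1 := by ext x; simp [pow_succ, ht.1]
    rw [h1, h2, one_mul]
  · have hcard : (s * t).support.card ≤ 5 := by
      rw [Perm.disjoint_iff_disjoint_support] at hd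
      have h1 : (s * t).support ⊆ s.support ∪ t.support := Perm.support_mul_le s t
      have h2 := Finset.card_le_card h1
      have h3 := Finset.card_union_add_card_inter s.support t.support
      rw [hs'.card_support, ht'.card_support] at h3
      have h4 : 0 < (s.support ∩ t.support).card := by
        rw [Finset.card_pos, ← Finset.not_disjoint_iff_nonempty_inter]
        exact hd
      omega
    have hsign : Perm.sign (s * t) = 1 := by
      rw [Perm.sign_mul, hs'.sign, ht'.sign, one_mul]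
    rw [Perm.sign_of_cycleType] at hsign
    have hsum := Perm.sum_cycleType (s * t)
    have h2le : ∀ n ∈ (s * t).cycleType, 2 ≤ n := fun n hn => Perm.two_le_of_mem_cycleType hn
    have hlcm := Perm.lcm_cycleType (s * t)
    have heven : Even ((s * t).cycleType.sum + (s * t).cycleType.card) := by
      by_contra hodd
      rw [Nat.not_even_iff_odd] at hodd
      rw [hodd.neg_one_pow] at hsign
      exact absurd hsign (by decide)
    have hc2 : (s * t).cycleType.card * 2 ≤ (s * t).cycleType.sum := by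
      have := Multiset.card_nsmul_le_sum h2le
      simpa [mul_comm] using this
    rw [← hsum] at hcard
    generalize (s * t).cycleType = C at *
    have key : ∀ n, orderOf (s * t) = n → (s * t) ^ n = 1 := by
      rintro n rfl; exact pow_orderOf_eq_one _
    have hcardC : C.card ≤ 2 := by omega
    rcases Nat.lt_or_ge C.card 1 with h0 | h0
    · left
      have : C = 0 := Multiset.card_eq_zero.mp (by omega)
      subst this
      simp at hlcm
      have h1 := orderOf_eq_one_iff.mp hlcm.symm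
      rw [h1, one_pow]
    rcases Nat.lt_or_ge C.card 2 with h1 | h1
    · obtain ⟨n, rfl⟩ := Multiset.card_eq_one.mp (by omega : C.card = 1)
      simp at hlcm heven hcard h2le
      have hn : n = 3 ∨ n = 5 := by
        rcases heven with ⟨r, hr⟩
        omega
      rcases hn with rfl | rfl
      · right; left; exact key 3 hlcm.symm
      · right; right; exact key 5 hlcm.symm
    · obtain ⟨x, y, rfl⟩ := Multiset.card_eq_two.mp (by omega : C.card = 2)
      simp at hlcm heven hcard h2le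
      left
      have hx : x = 2 ∧ y = 2 := by
        rcases heven with ⟨r, hr⟩
        omega
      obtain ⟨rfl, rfl⟩ := hx
      exact key 2 (by rw [← hlcm]; rfl)
end

section
variable {X : Type*} [DecidableEq X]

/-- double transposition -/
def dt (p q r s : X) : Perm X := swap p q * swap r s

variable {p q r s : X}
theorem dt_p (hpr : p ≠ r) (hps : p ≠ s) : dt p q r s p = q := by
  rw [dt, Perm.mul_apply, swap_apply_of_ne_of_ne hpr hps, swap_apply_left]
theorem dt_q (hqr : q ≠ r) (hqs : q ≠ s) : dt p q r s q = p := by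
  rw [dt, Perm.mul_apply, swap_apply_of_ne_of_ne hqr hqs, swap_apply_right]
theorem dt_r (hps : p ≠ s) (hqs : q ≠ s) : dt p q r s r = s := by
  rw [dt, Perm.mul_apply, swap_apply_left, swap_apply_of_ne_of_ne hps.symm hqs.symm]
theorem dt_s (hpr : p ≠ r) (hqr : q ≠ r) : dt p q r s s = r := by
  rw [dt, Perm.mul_apply, swap_apply_right, swap_apply_of_ne_of_ne hpr.symm hqr.symm]
theorem dt_o {x : X} (hp : x ≠ p) (hq : x ≠ q) (hr : x ≠ r) (hs : x ≠ s) : dt p q r s x = x := by
  rw [dt, Perm.mul_apply, swap_apply_of_ne_of_ne hr hs, swap_apply_of_ne_of_ne hp hq]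

theorem dt_sq (hpr : p ≠ r) (hps : p ≠ s) (hqr : q ≠ r) (hqs : q ≠ s) :
    dt p q r s * dt p q r s = 1 := by
  have hc : Commute (swap p q) (swap r s) := by
    have : swap r s = swap p q * swap r s * (swap p q)⁻¹ := by
      rw [← swap_apply_apply, swap_apply_of_ne_of_ne hpr.symm hqr.symm,
        swap_apply_of_ne_of_ne hps.symm hqs.symm]
    show swap p q * swap r s = swap r s * swap p q
    conv_rhs => rw [this]
    group
  rw [dt]
  calc swap p q * swap r s * (swap p q * swap r s)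
      = swap p q * (swap r s * swap p q) * swap r s := by group
    _ = swap p q * (swap p q * swap r s) * swap r s := by rw [hc.eq]
    _ = (swap p q * swap p q) * (swap r s * swap r s) := by group
    _ = 1 := by rw [swap_mul_self, swap_mul_self, one_mul]

theorem dt_eq (p q r s : X) : dt p q r s = cyc p q r * cyc q r s := by
  rw [dt, cyc, cyc]
  calc swap p q * swap r s = swap p q * 1 * swap r s := by rw [mul_one]
    _ = swap p q * (swap q r * swap q r) * swap r s := by rw [swap_mul_self]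
    _ = _ := by group

end

/-- the hypothesis on a permutation: block-preserving -/
abbrev Pt (k m : ℕ) := Fin k × Fin m

/-- bad -/
def Bad {X : Type*} (z : Perm X) : Prop := z ^ 2 ≠ 1 ∧ z ^ 3 ≠ 1 ∧ z ^ 5 ≠ 1

theorem fresh {k m : ℕ} (hm : 7 ≤ m) (S : Finset (Pt k m)) (hS : S.card ≤ 6) (j : Fin k) :
    ∃ x : Pt k m, x.1 = j ∧ x ∉ S := by
  by_contra hcon
  push Not at hcon
  have h1 : (Finset.univ : Finset (Fin m)).card ≤ S.card := by
    apply Finset.card_le_card_of_injOn (fun y => (j, y))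
    · intro y _
      exact hcon _ rfl
    · intro y _ z _ h
      exact (Prod.ext_iff.mp h).2
  rw [Finset.card_univ, Fintype.card_fin] at h1
  omega

section
variable {k m : ℕ}

/-- two cycles in the same block -/
theorem same_block (hm : 7 ≤ m) {u : Perm (Pt k m)} (h3 : ∀ x, u (u (u x)) = x)
    (hb : ∀ x, (u x).1 = x.1) {p s : Pt k m} (hp : u p ≠ p) (hs : u s ≠ s)
    (h1 : s ≠ p) (h2 : s ≠ u p) (h4 : s ≠ u (u p)) (hps : s.1 = p.1) :
    ∃ p q r s : Pt k m, p.1 = q.1 ∧ p.1 = r.1 ∧ p.1 = s.1 ∧ p ≠ q ∧ p ≠ r ∧ p ≠ s ∧ q ≠ r ∧ q ≠ s ∧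
      r ≠ s ∧ Bad (u * dt p q r s * u⁻¹ * dt p q r s) := by
  have hinv : ∀ x, u⁻¹ x = u (u x) := fun x => by
    rw [Perm.inv_eq_iff_eq]; exact (h3 x).symm
  have hi := u.injective
  have hz : ∀ p q r s x, (u * dt p q r s * u⁻¹ * dt p q r s) x =
      u (dt p q r s (u (u (dt p q r s x)))) := by
    intro p q r s x
    rw [Perm.mul_apply, Perm.mul_apply, Perm.mul_apply, hinv]
  -- distinctness of the six points
  have a1 : p ≠ u p := hp.symm
  have a2 : u p ≠ u (u p) := fun h => a1 (hi h)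
  have a3 : u (u p) ≠ p := by
    intro h
    have := h3 p
    rw [h] at this
    exact hp this
  have b1 : s ≠ u s := hs.symm
  have b2 : u s ≠ u (u s) := fun h => b1 (hi h)
  have b3 : u (u s) ≠ s := by
    intro h
    have := h3 s
    rw [h] at this
    exact hs this
  have c1 : u s ≠ p := by
    intro h; apply h4; rw [← h, h3]
  have c2 : u s ≠ u p := fun h => h1 (hi h)
  have c3 : u s ≠ u (u p) := fun h => h2 (hi h)
  have c4 : u (u s) ≠ p := by
    intro h; apply h2; rw [← h, h3]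
  have c5 : u (u s) ≠ u p := fun h => c1 (hi h)
  have c6 : u (u s) ≠ u (u p) := fun h => h1 (hi (hi h))
  obtain ⟨q, hq, hqn⟩ := fresh hm {p, u p, u (u p), s, u s, u (u s)} Finset.card_le_six p.1
  simp only [Finset.mem_insert, Finset.mem_singleton, not_or] at hqn
  obtain ⟨d1, d2, d3, d4, d5, d6⟩ := hqn
  by_cases hqf : u q = q
  · -- fixed point : order 4, x = (p q)(r s), r = u p
    refine ⟨p, q, u p, s, hq.symm, (hb p).symm, hps.symm, Ne.symm d1, a1, h1.symm, d2, d4,
      h2.symm, ?_⟩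
    have e1 : (u * dt p q (u p) s * u⁻¹ * dt p q (u p) s) p = u p := by
      rw [hz, dt_p a1 h1.symm, hqf, hqf, dt_q d2 d4]
    have e2 : (u * dt p q (u p) s * u⁻¹ * dt p q (u p) s) (u p) = s := by
      rw [hz, dt_r h1.symm d4, dt_o c4 (Ne.symm d6) c5 b3, h3]
    have e3 : (u * dt p q (u p) s * u⁻¹ * dt p q (u p) s) s = q := by
      rw [hz, dt_s a1 d2, h3, dt_p a1 h1.symm, hqf]
    have e4 : (u * dt p q (u p) s * u⁻¹ * dt p q (u p) s) q = p := by
      rw [hz, dt_q d2 d4, dt_o a3 (Ne.symm d3) a2.symm h4.symm, h3]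
    generalize (u * dt p q (u p) s * u⁻¹ * dt p q (u p) s) = z at *
    refine ⟨fun h => ?_, fun h => ?_, fun h => ?_⟩
    · have := congrArg (fun f : Perm (Pt k m) => f p) h
      simp [pow_succ, e1, e2] at this
      exact h1 this
    · have := congrArg (fun f : Perm (Pt k m) => f p) h
      simp [pow_succ, e1, e2, e3] at this
      exact d1 this
    · have := congrArg (fun f : Perm (Pt k m) => f p) h
      simp [pow_succ, e1, e2, e3, e4] at this
      exact hp this
  · -- third cycle : order 6, x = (p up)(s q)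
    refine ⟨p, u p, s, q, (hb p).symm, hps.symm, hq.symm, a1, h1.symm, Ne.symm d1, h2.symm,
      Ne.symm d2, Ne.symm d4, ?_⟩
    have f1 : u q ≠ p := by intro h; apply d3; rw [← h, h3]
    have f2 : u q ≠ u p := fun h => d1 (hi h)
    have f3 : u q ≠ u (u p) := fun h => d2 (hi h)
    have f4 : u q ≠ s := by intro h; apply d6; rw [← h, h3]
    have g1 : u (u q) ≠ p := by intro h; apply d2; rw [← h, h3]
    have g2 : u (u q) ≠ u p := fun h => f1 (hi h)
    have g4 : u (u q) ≠ s := by intro h; apply d5; rw [← h, h3]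
    have g5 : u (u q) ≠ q := by
      intro h
      have := h3 q
      rw [h] at this
      exact hqf this
    have e1 : (u * dt p (u p) s q * u⁻¹ * dt p (u p) s q) p = u (u p) := by
      rw [hz, dt_p h1.symm (Ne.symm d1), h3, dt_p h1.symm (Ne.symm d1)]
    have e2 : (u * dt p (u p) s q * u⁻¹ * dt p (u p) s q) (u (u p)) = u p := by
      rw [hz, dt_o a3 a2.symm h4.symm (Ne.symm d3), h3, dt_q h2.symm (Ne.symm d2)]
    have e3 : (u * dt p (u p) s q * u⁻¹ * dt p (u p) s q) (u p) = p := by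
      rw [hz, dt_q h2.symm (Ne.symm d2), dt_o a3 a2.symm h4.symm (Ne.symm d3), h3]
    have e4 : (u * dt p (u p) s q * u⁻¹ * dt p (u p) s q) s = q := by
      rw [hz, dt_r (Ne.symm d1) (Ne.symm d2), dt_o g1 g2 g4 g5, h3]
    have e5 : (u * dt p (u p) s q * u⁻¹ * dt p (u p) s q) q = s := by
      rw [hz, dt_s h1.symm h2.symm, dt_o c4 c5 b3 (Ne.symm d6), h3]
    generalize (u * dt p (u p) s q * u⁻¹ * dt p (u p) s q) = z at *
    refine ⟨fun h => ?_, fun h => ?_, fun h => ?_⟩
    · have := congrArg (fun f : Perm (Pt k m) => f p) h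
      simp [pow_succ, e1, e2] at this
      exact hp this
    · have := congrArg (fun f : Perm (Pt k m) => f s) h
      simp [pow_succ, e4, e5] at this
      exact d4 this
    · have := congrArg (fun f : Perm (Pt k m) => f p) h
      simp [pow_succ, e1, e2, e3] at this
      exact hp this

end

section
variable {k m : ℕ}

theorem diff_block (hm : 7 ≤ m) {u : Perm (Pt k m)} (h3 : ∀ x, u (u (u x)) = x)
    (hb : ∀ x, (u x).1 = x.1) {p s : Pt k m} (hp : u p ≠ p) (hs : u s ≠ s) (hps : s.1 ≠ p.1)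
    (hpf : ∀ x, x.1 = p.1 → u x ≠ x → x = p ∨ x = u p ∨ x = u (u p))
    (hsf : ∀ x, x.1 = s.1 → u x ≠ x → x = s ∨ x = u s ∨ x = u (u s))
    (K : Subgroup (Perm (Pt k m)))
    (hK : ∀ p q r s : Pt k m, p.1 = q.1 → p.1 = r.1 → p.1 = s.1 → p ≠ q → p ≠ r → p ≠ s → q ≠ r →
      q ≠ s → r ≠ s → dt p q r s ∈ K) :
    ∃ x ∈ K, x * x = 1 ∧ Bad (u * x * u⁻¹ * x) := by
  have hinv : ∀ x, u⁻¹ x = u (u x) := fun x => by
    rw [Perm.inv_eq_iff_eq]; exact (h3 x).symm
  have hi := u.injective
  have a1 : p ≠ u p := hp.symm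
  have a2 : u p ≠ u (u p) := fun h => a1 (hi h)
  have a3 : u (u p) ≠ p := by
    intro h
    have := h3 p
    rw [h] at this
    exact hp this
  have b1 : s ≠ u s := hs.symm
  have b2 : u s ≠ u (u s) := fun h => b1 (hi h)
  have b3 : u (u s) ≠ s := by
    intro h
    have := h3 s
    rw [h] at this
    exact hs this
  obtain ⟨d, hd, hdn⟩ := fresh hm {p, u p, u (u p)} (Finset.card_le_three.trans (by norm_num)) p.1
  simp only [Finset.mem_insert, Finset.mem_singleton, not_or] at hdn
  obtain ⟨d1, d2, d3⟩ := hdn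
  obtain ⟨e, he, hen⟩ := fresh hm {p, u p, u (u p), d} (Finset.card_le_four.trans (by norm_num)) p.1
  simp only [Finset.mem_insert, Finset.mem_singleton, not_or] at hen
  obtain ⟨e1, e2, e3, e4⟩ := hen
  obtain ⟨f, hf, hfn⟩ := fresh hm {s, u s, u (u s)} (Finset.card_le_three.trans (by norm_num)) s.1
  simp only [Finset.mem_insert, Finset.mem_singleton, not_or] at hfn
  obtain ⟨f1, f2, f3⟩ := hfn
  have hfu : u f = f := by
    by_contra h
    rcases hsf f hf h with h | h | h
    · exact f1 h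
    · exact f2 h
    · exact f3 h
  have hup : (u p).1 = p.1 := hb p
  have huup : (u (u p)).1 = p.1 := by rw [hb, hb]
  have hus : (u s).1 = s.1 := hb s
  have huus : (u (u s)).1 = s.1 := by rw [hb, hb]
  have X1o : ∀ y : Pt k m, y.1 ≠ p.1 → dt p (u p) d e y = y := by
    intro y hy
    apply dt_o
    · rintro rfl; exact hy rfl
    · rintro rfl; exact hy hup
    · rintro rfl; exact hy hd
    · rintro rfl; exact hy he
  have X2o : ∀ y : Pt k m, y.1 = p.1 → dt s (u s) (u (u s)) f y = y := by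
    intro y hy
    rw [← hy] at hps
    apply dt_o
    · rintro rfl; exact hps rfl
    · rintro rfl; exact hps hus.symm
    · rintro rfl; exact hps huus.symm
    · rintro rfl; exact hps hf.symm
  have hdisj : Perm.Disjoint (dt p (u p) d e) (dt s (u s) (u (u s)) f) := by
    intro y
    by_cases hy : y.1 = p.1
    · exact Or.inr (X2o y hy)
    · exact Or.inl (X1o y hy)
  have hc := hdisj.commute
  have hsq1 : dt p (u p) d e * dt p (u p) d e = 1 :=
    dt_sq (Ne.symm d1) (Ne.symm e1) (Ne.symm d2) (Ne.symm e2)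
  have hsq2 : dt s (u s) (u (u s)) f * dt s (u s) (u (u s)) f = 1 :=
    dt_sq b3.symm (Ne.symm f1) b2 (Ne.symm f2)
  refine ⟨dt p (u p) d e * dt s (u s) (u (u s)) f, K.mul_mem ?_ ?_, ?_, ?_⟩
  · exact hK _ _ _ _ hup.symm hd.symm he.symm a1 (Ne.symm d1) (Ne.symm e1) (Ne.symm d2)
      (Ne.symm e2) (Ne.symm e4)
  · exact hK _ _ _ _ hus.symm huus.symm hf.symm b1 b3.symm (Ne.symm f1) b2 (Ne.symm f2) (Ne.symm f3)
  · calc dt p (u p) d e * dt s (u s) (u (u s)) f * (dt p (u p) d e * dt s (u s) (u (u s)) f)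
        = dt p (u p) d e * (dt s (u s) (u (u s)) f * dt p (u p) d e) * dt s (u s) (u (u s)) f := by
          group
      _ = dt p (u p) d e * (dt p (u p) d e * dt s (u s) (u (u s)) f) * dt s (u s) (u (u s)) f := by
          rw [hc.eq]
      _ = (dt p (u p) d e * dt p (u p) d e) * (dt s (u s) (u (u s)) f * dt s (u s) (u (u s)) f) := by
          group
      _ = 1 := by rw [hsq1, hsq2, one_mul]
  · have hz : ∀ y, (u * (dt p (u p) d e * dt s (u s) (u (u s)) f) * u⁻¹ *
        (dt p (u p) d e * dt s (u s) (u (u s)) f)) y =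
        u (dt p (u p) d e (dt s (u s) (u (u s)) f (u (u (dt p (u p) d e
          (dt s (u s) (u (u s)) f y)))))) := by
      intro y
      simp only [Perm.mul_apply, hinv]
    have g1 : (u * (dt p (u p) d e * dt s (u s) (u (u s)) f) * u⁻¹ *
        (dt p (u p) d e * dt s (u s) (u (u s)) f)) p = u (u p) := by
      rw [hz, X2o p rfl, dt_p (Ne.symm d1) (Ne.symm e1), h3, X2o p rfl,
        dt_p (Ne.symm d1) (Ne.symm e1)]
    have g2 : (u * (dt p (u p) d e * dt s (u s) (u (u s)) f) * u⁻¹ *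
        (dt p (u p) d e * dt s (u s) (u (u s)) f)) (u (u p)) = u p := by
      rw [hz, X2o _ huup, dt_o a3 a2.symm (Ne.symm d3) (Ne.symm e3), h3, X2o _ hup,
        dt_q (Ne.symm d2) (Ne.symm e2)]
    have g3 : (u * (dt p (u p) d e * dt s (u s) (u (u s)) f) * u⁻¹ *
        (dt p (u p) d e * dt s (u s) (u (u s)) f)) (u p) = p := by
      rw [hz, X2o _ hup, dt_q (Ne.symm d2) (Ne.symm e2), X2o _ huup,
        dt_o a3 a2.symm (Ne.symm d3) (Ne.symm e3), h3]
    have g4 : (u * (dt p (u p) d e * dt s (u s) (u (u s)) f) * u⁻¹ *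
        (dt p (u p) d e * dt s (u s) (u (u s)) f)) s = u (u s) := by
      rw [hz, dt_p b3.symm (Ne.symm f1), X1o (u s) (by rw [hus]; exact hps), h3,
        dt_p b3.symm (Ne.symm f1), X1o (u s) (by rw [hus]; exact hps)]
    have g5 : (u * (dt p (u p) d e * dt s (u s) (u (u s)) f) * u⁻¹ *
        (dt p (u p) d e * dt s (u s) (u (u s)) f)) (u (u s)) = s := by
      rw [hz, dt_r (Ne.symm f1) (Ne.symm f2), X1o f (by rw [hf]; exact hps), hfu, hfu,
        dt_s b3.symm b2, X1o (u (u s)) (by rw [huus]; exact hps), h3]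
    generalize (u * (dt p (u p) d e * dt s (u s) (u (u s)) f) * u⁻¹ *
        (dt p (u p) d e * dt s (u s) (u (u s)) f)) = z at *
    refine ⟨fun h => ?_, fun h => ?_, fun h => ?_⟩
    · have := congrArg (fun f : Perm (Pt k m) => f p) h
      simp [pow_succ, g1, g2] at this
      exact hp this
    · have := congrArg (fun f : Perm (Pt k m) => f s) h
      simp [pow_succ, g4, g5] at this
      exact b3 this
    · have := congrArg (fun f : Perm (Pt k m) => f p) h
      simp [pow_succ, g1, g2, g3] at this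
      exact hp this

theorem is3_of_good (hm : 7 ≤ m) {u : Perm (Pt k m)} (h3 : ∀ x, u (u (u x)) = x)
    (hb : ∀ x, (u x).1 = x.1) (hne : ∃ p, u p ≠ p) (K : Subgroup (Perm (Pt k m)))
    (hK : ∀ p q r s : Pt k m, p.1 = q.1 → p.1 = r.1 → p.1 = s.1 → p ≠ q → p ≠ r → p ≠ s → q ≠ r →
      q ≠ s → r ≠ s → dt p q r s ∈ K)
    (hQ : ∀ x ∈ K, x * x = 1 → ¬ Bad (u * x * u⁻¹ * x)) : Is3 u := by
  have hsame : ∀ p s : Pt k m, u p ≠ p → u s ≠ s → s.1 = p.1 → s = p ∨ s = u p ∨ s = u (u p) := by
    intro p s hp hs hps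
    by_contra hcon
    push Not at hcon
    obtain ⟨p, q, r, s, h1, h2, h3', h4, h5, h6, h7, h8, h9, hbad⟩ :=
      same_block hm h3 hb hp hs hcon.1 hcon.2.1 hcon.2.2 hps
    exact hQ _ (hK _ _ _ _ h1 h2 h3' h4 h5 h6 h7 h8 h9) (dt_sq h5 h6 h7 h8) hbad
  refine ⟨h3, hne, fun p s hp hs => ?_⟩
  by_cases hps : s.1 = p.1
  · exact hsame p s hp hs hps
  · exfalso
    obtain ⟨x, hx, hxx, hbad⟩ := diff_block hm h3 hb hp hs hps
      (fun x hx hux => hsame p x hp hux hx) (fun x hx hux => hsame s x hs hux hx) K hK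
    exact hQ x hx hxx hbad

theorem good_of_is3 {u : Perm (Pt k m)} (hu : Is3 u) (x : Perm (Pt k m)) (hx : x * x = 1) :
    ¬ Bad (u * x * u⁻¹ * x) := by
  have hxi : x⁻¹ = x := inv_eq_of_mul_eq_one_right hx
  have h3 := hu.1
  have h1 : u * x * u⁻¹ * x = u * (x * u⁻¹ * x⁻¹) := by rw [hxi]; group
  have hinv : u⁻¹ = u * u := by
    refine Equiv.ext fun y => ?_
    rw [Perm.mul_apply, Perm.inv_eq_iff_eq.mpr (h3 y).symm]
  obtain ⟨p, hp⟩ := hu.2.1
  have h2 : Is3 (x * u⁻¹ * x⁻¹) := by
    have : u⁻¹ = cyc p (u (u p)) (u p) := by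
      have h4 : Is3 u⁻¹ := by
        rw [hinv]
        refine ⟨fun a => ?_, ⟨p, ?_⟩, fun a b ha hb => ?_⟩
        · simp only [Perm.mul_apply, h3]
        · rw [Perm.mul_apply]; exact hu.ne2 hp
        · simp only [Perm.mul_apply, h3] at *
          have ha' : u a ≠ a := fun h => ha (by rw [h, h])
          have hb' : u b ≠ b := fun h => hb (by rw [h, h])
          rcases hu.2.2 a b ha' hb' with h | h | h <;> simp [h]
      have h5 : u⁻¹ p ≠ p := by
        rw [hinv, Perm.mul_apply]; exact hu.ne2 hp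
      have h6 := h4.eq_cyc h5
      have h7 : u⁻¹ p = u (u p) := by rw [hinv, Perm.mul_apply]
      have h8 : u⁻¹ (u⁻¹ p) = u p := by rw [h7, hinv, Perm.mul_apply, h3]
      rw [h7] at h8
      rw [h7, h8] at h6
      exact h6
    rw [this, conj_cyc]
    apply is3_cyc
    · exact fun h => hu.ne2 hp (x.injective h).symm
    · exact fun h => hp (x.injective h).symm
    · exact fun h => hp (u.injective (x.injective h))
  rw [h1]
  rintro ⟨hb1, hb2, hb3⟩
  rcases prod_three hu h2 with h | h | h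
  · exact hb1 h
  · exact hb2 h
  · exact hb3 h

end

section
variable {X : Type*} [DecidableEq X]

theorem Is3.fix {t : Perm X} (ht : Is3 t) {p w : X} (hp : t p ≠ p) (h1 : w ≠ p) (h2 : w ≠ t p)
    (h3 : w ≠ t (t p)) : t w = w := by
  by_contra h
  rcases ht.2.2 p w hp h with h | h | h
  · exact h1 h
  · exact h2 h
  · exact h3 h

/-- common directed edge -/
theorem edge {s t : Perm X} (hs : Is3 s) (ht : Is3 t) (h2 : (s * t) ^ 2 = 1) (h1 : s * t ≠ 1) :
    ∃ p, s p = t p ∧ s p ≠ p := by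
  have hz : ∀ w, s (t (s (t w))) = w := by
    intro w
    have := congrArg (fun f : Perm X => f w) h2
    simpa [pow_succ] using this
  obtain ⟨q, hsq, htq⟩ : ∃ q, s q ≠ q ∧ t q ≠ q := by
    by_contra hcon
    push Not at hcon
    have hd : Perm.Disjoint s t := fun x => by
      by_cases h : s x = x
      · exact Or.inl h
      · exact Or.inr (hcon x h)
    apply h1
    have e1 : s ^ 3 = 1 := by refine Equiv.ext fun x => ?_; simp [pow_succ, hs.1]
    have e2 : t ^ 3 = 1 := by refine Equiv.ext fun x => ?_; simp [pow_succ, ht.1]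
    have e3 : (s * t) ^ 3 = 1 := by rw [hd.commute.mul_pow, e1, e2, one_mul]
    calc s * t = ((s * t) ^ 2)⁻¹ * (s * t) ^ 3 := by group
      _ = 1 := by rw [h2, e3]; simp
  by_contra hcon
  push Not at hcon
  have hxu : s q ≠ t q := fun h => hsq (hcon q h)
  have hsy := hs.1 q
  have htv := ht.1 q
  have hyv : s (s q) ≠ t (t q) := by
    intro h
    have h5 := hcon (s (s q)) (by rw [hsy, h, htv])
    rw [hsy] at h5
    exact hs.ne2 hsq h5.symm
  by_cases hxv : s q = t (t q)
  · by_cases huy : t q = s (s q)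
    · apply h1
      refine Equiv.ext fun w => ?_
      rw [Perm.mul_apply, Perm.one_apply]
      by_cases w1 : w = q
      · rw [w1, huy, hsy]
      by_cases w2 : w = t q
      · rw [w2, ← hxv, ← huy]
      by_cases w3 : w = t (t q)
      · rw [w3, htv, hxv]
      · rw [ht.fix htq w1 w2 w3, hs.fix hsq w1 (by rw [hxv]; exact w3) (by rw [← huy]; exact w2)]
    · have h6 : s (t q) = t q := hs.fix hsq htq (Ne.symm hxu) huy
      have h7 := hz q
      rw [h6, ← hxv] at h7
      exact hs.ne2 hsq h7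
  · have h6 : t (s q) = s q := ht.fix htq hsq hxu hxv
    have h7 := hz (t (t q))
    rw [htv, h6] at h7
    exact hyv h7

theorem clique {t1 t2 t3 : Perm X} (h1 : Is3 t1) (h2 : Is3 t2) (h3 : Is3 t3) {p : X}
    (e12 : t1 p = t2 p) (hp : t1 p ≠ p) (hne : t1 ≠ t2) (e13 : ∃ a, t1 a = t3 a ∧ t1 a ≠ a)
    (e23 : ∃ a, t2 a = t3 a ∧ t2 a ≠ a) : t3 p = t1 p := by
  obtain ⟨a, ha, ha'⟩ := e13
  obtain ⟨b, hb, hb'⟩ := e23
  have hp2 : t2 p ≠ p := by rw [← e12]; exact hp
  have hrs : t1 (t1 p) ≠ t2 (t1 p) := by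
    intro h
    apply hne
    rw [h1.eq_cyc hp, h2.eq_cyc hp2, ← e12, h]
  have hr : t1 (t1 (t1 p)) = p := h1.1 p
  have hs : t2 (t2 (t1 p)) = p := by rw [e12]; exact h2.1 p
  rcases h1.2.2 p a hp ha' with rfl | rfl | rfl
  · exact ha.symm
  · rcases h2.2.2 p b hp2 hb' with rfl | rfl | rfl
    · rw [← hb, e12]
    · exfalso
      rw [← e12] at hb
      exact hrs (ha.trans hb.symm)
    · exfalso
      rw [← e12] at hb hb'
      -- t3 q = r, t3 s = p
      have k1 : t3 (t1 p) ≠ t1 p := by rw [← ha]; exact ha'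
      have k2 : t3 (t2 (t1 p)) ≠ t2 (t1 p) := by rw [← hb]; exact hb'
      rcases h3.2.2 _ _ k1 k2 with h | h | h
      · rw [e12] at h; exact hp2 (t2.injective h)
      · rw [← ha] at h; exact hrs h.symm
      · have := h3.1 (t1 p)
        rw [← h, ← hb, hs] at this
        exact hp this.symm
  · rcases h2.2.2 p b hp2 hb' with rfl | rfl | rfl
    · rw [← hb, e12]
    · exfalso
      rw [← e12] at hb hb'
      -- t3 r = p, t3 q = s
      have k1 : t3 (t1 p) ≠ t1 p := by rw [← hb]; exact hb'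
      have k2 : t3 (t1 (t1 p)) ≠ t1 (t1 p) := by rw [← ha]; exact ha'
      rcases h3.2.2 _ _ k1 k2 with h | h | h
      · exact hp (t1.injective h)
      · rw [← hb] at h; exact hrs h
      · have := h3.1 (t1 p)
        rw [← h, ← ha, hr] at this
        exact hp this.symm
    · exfalso
      rw [← e12] at hb hb'
      rw [hr] at ha
      rw [hs] at hb
      exact hrs (t3.injective (ha.symm.trans hb))

theorem cyc_rot {a b c : X} (hab : a ≠ b) (hac : a ≠ c) (hbc : b ≠ c) : cyc b c a = cyc a b c := by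
  refine Equiv.ext fun w => ?_
  by_cases w1 : w = a
  · rw [w1, cyc_c, cyc_a hab hac]
  by_cases w2 : w = b
  · rw [w2, cyc_b hac hbc, cyc_a hbc hab.symm]
  by_cases w3 : w = c
  · rw [w3, cyc_c, cyc_b hab.symm hac.symm]
  rw [cyc_o w1 w2 w3, cyc_o w2 w3 w1]

theorem cyc_mul_inv {a b c : X} (hab : a ≠ b) (hac : a ≠ c) (hbc : b ≠ c) :
    cyc a b c * cyc a c b = 1 := by
  refine Equiv.ext fun w => ?_
  rw [Perm.mul_apply, Perm.one_apply]
  by_cases w1 : w = a
  · rw [w1, cyc_a hac hab, cyc_c]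
  by_cases w2 : w = b
  · rw [w2, cyc_c, cyc_a hab hac]
  by_cases w3 : w = c
  · rw [w3, cyc_b hab hbc.symm, cyc_b hac hbc]
  rw [cyc_o w1 w3 w2, cyc_o w1 w2 w3]

theorem cyc_swap {a b c : X} (hab : a ≠ b) (hac : a ≠ c) (hbc : b ≠ c) :
    cyc b a c = (cyc a b c)⁻¹ := by
  rw [eq_comm, inv_eq_iff_mul_eq_one, ← cyc_rot (a := b) (b := a) (c := c) hab.symm hbc hac]
  exact cyc_mul_inv hab hac hbc

theorem cyc_pat {a b x y : X} (hab : a ≠ b) (hax : a ≠ x) (hbx : b ≠ x) (hay : a ≠ y) (hby : b ≠ y)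
    (hxy : x ≠ y) : cyc b x y = (cyc a b y)⁻¹ * cyc a b x := by
  rw [eq_inv_mul_iff_mul_eq]
  refine Equiv.ext fun w => ?_
  rw [Perm.mul_apply]
  by_cases w1 : w = a
  · rw [w1, cyc_o hab hax hay, cyc_a hab hay, cyc_a hab hax]
  by_cases w2 : w = b
  · rw [w2, cyc_a hbx hby, cyc_o hax.symm hbx.symm hxy, cyc_b hax hbx]
  by_cases w3 : w = x
  · rw [w3, cyc_b hby hxy, cyc_c, cyc_c]
  by_cases w4 : w = y
  · rw [w4, cyc_c, cyc_b hay hby, cyc_o hay.symm hby.symm hxy.symm]
  rw [cyc_o w2 w3 w4, cyc_o w1 w2 w4, cyc_o w1 w2 w3]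

theorem cyc_dt {a b x y : X} (hab : a ≠ b) (hax : a ≠ x) (hbx : b ≠ x) (hay : a ≠ y) (hby : b ≠ y)
    (hxy : x ≠ y) : cyc a b x * cyc a b y = dt a x b y := by
  refine Equiv.ext fun w => ?_
  rw [Perm.mul_apply]
  by_cases w1 : w = a
  · rw [w1, cyc_a hab hay, cyc_b hax hbx, dt_p hab hay]
  by_cases w2 : w = b
  · rw [w2, cyc_b hay hby, cyc_o hay.symm hby.symm hxy.symm, dt_r hay hxy]
  by_cases w3 : w = x
  · rw [w3, cyc_o hax.symm hbx.symm hxy, cyc_c, dt_q hbx.symm hxy]
  by_cases w4 : w = y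
  · rw [w4, cyc_c, cyc_a hab hax, dt_s hab hbx.symm]
  rw [cyc_o w1 w2 w4, cyc_o w1 w2 w3, dt_o w1 w3 w2 w4]

theorem gen (K : Subgroup (Perm X)) (S : Set X) {o i : X} (ho : o ∈ S) (hi : i ∈ S) (hoi : o ≠ i)
    (h : ∀ x ∈ S, x ≠ o → x ≠ i → cyc o i x ∈ K) :
    ∀ a ∈ S, ∀ b ∈ S, a ≠ b → ∀ x ∈ S, x ≠ a → x ≠ b → cyc a b x ∈ K := by
  have symm : ∀ a b, a ≠ b → (∀ x ∈ S, x ≠ a → x ≠ b → cyc a b x ∈ K) →
      ∀ x ∈ S, x ≠ b → x ≠ a → cyc b a x ∈ K := by
    intro a b hab hg x hx hxb hxa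
    rw [cyc_swap hab hxa.symm hxb.symm]
    exact K.inv_mem (hg x hx hxa hxb)
  have step : ∀ a ∈ S, ∀ b ∈ S, a ≠ b → (∀ x ∈ S, x ≠ a → x ≠ b → cyc a b x ∈ K) →
      ∀ x ∈ S, x ≠ a → x ≠ b → ∀ y ∈ S, y ≠ b → y ≠ x → cyc b x y ∈ K := by
    intro a ha b hb hab hg x hx hxa hxb y hy hyb hyx
    by_cases hya : y = a
    · rw [hya, cyc_rot hab hxa.symm hxb.symm]
      exact hg x hx hxa hxb
    · rw [cyc_pat hab hxa.symm hxb.symm (Ne.symm hya) hyb.symm hyx.symm]
      exact K.mul_mem (K.inv_mem (hg y hy hya hyb)) (hg x hx hxa hxb)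
  have h' := symm o i hoi h
  have giv := step o ho i hi hoi h
  have gov := step i hi o ho hoi.symm h'
  intro a ha b hb hab
  by_cases a1 : a = o
  · subst a1
    by_cases b1 : b = i
    · subst b1; exact h
    · exact gov b hb b1 hab.symm
  by_cases a2 : a = i
  · subst a2
    by_cases b1 : b = o
    · subst b1; exact h'
    · exact giv b hb b1 hab.symm
  by_cases b1 : b = o
  · subst b1
    exact symm _ _ hab.symm (gov a ha a2 a1)
  by_cases b2 : b = i
  · subst b2
    exact symm _ _ hab.symm (giv a ha a1 a2)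
  exact step i hi a ha (Ne.symm a2) (giv a ha a1 a2) b hb b2 hab.symm

end

section
variable {k m : ℕ} {H : Type*} [Group H]

/-- a homomorphism whose image preserves the blocks and contains the block three-cycles -/
def Full (φ : H →* Perm (Pt k m)) : Prop :=
  (∀ h x, (φ h x).1 = x.1) ∧
  (∀ a b c : Pt k m, a.1 = b.1 → a.1 = c.1 → a ≠ b → a ≠ c → b ≠ c → ∃ h, φ h = cyc a b c)

theorem is3_transfer (hm : 7 ≤ m) {φ ψ : H →* Perm (Pt k m)} (hψ : Full ψ)
    (hk : ∀ h, φ h = 1 ↔ ψ h = 1) {h : H} (h3 : Is3 (φ h)) : Is3 (ψ h) := by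
  have hcube : φ (h ^ 3) = 1 := by
    rw [map_pow]
    refine Equiv.ext fun x => ?_
    simp [pow_succ, h3.1]
  rw [hk, map_pow] at hcube
  refine is3_of_good hm (u := ψ h) (fun x => ?_) (hψ.1 h) ?_ ψ.range ?_ ?_
  · have := congrArg (fun f : Perm (Pt k m) => f x) hcube
    simpa [pow_succ] using this
  · by_contra hcon
    push Not at hcon
    have h1 : ψ h = 1 := Equiv.ext hcon
    rw [← hk] at h1
    obtain ⟨a, ha⟩ := h3.2.1
    rw [h1] at ha
    exact ha rfl
  · intro p q r s e1 e2 e3 n1 n2 n3 n4 n5 n6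
    rw [dt_eq]
    obtain ⟨g1, hg1⟩ := hψ.2 p q r e1 e2 n1 n2 n4
    obtain ⟨g2, hg2⟩ := hψ.2 q r s (e1.symm.trans e2) (e1.symm.trans e3) n4 n5 n6
    exact ⟨g1 * g2, by rw [map_mul, hg1, hg2]⟩
  · rintro _ ⟨x, rfl⟩ hx ⟨b1, b2, b3⟩
    have hx' : φ x * φ x = 1 := by
      rw [← map_mul, hk, map_mul, hx]
    apply good_of_is3 h3 (φ x) hx'
    refine ⟨fun hc => b1 ?_, fun hc => b2 ?_, fun hc => b3 ?_⟩ <;>
    · rw [← map_inv, ← map_mul, ← map_mul, ← map_mul, ← map_pow] at hc ⊢
      exact (hk _).mp hc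

theorem transfer (hm : 7 ≤ m) {φ ψ : H →* Perm (Pt k m)} (hφ : Full φ) (hψ : Full ψ)
    (hgen : ∀ h, φ h ∈ Subgroup.closure {t | ∃ a b c : Pt k m, a.1 = b.1 ∧ a.1 = c.1 ∧ a ≠ b ∧
      a ≠ c ∧ b ≠ c ∧ t = cyc a b c})
    (hk : ∀ h, φ h = 1 ↔ ψ h = 1) :
    ∃ ρ : Perm (Pt k m), ∀ h, ψ h = ρ * φ h * ρ⁻¹ := by
  classical
  let o : Fin m := ⟨0, by omega⟩
  let i : Fin m := ⟨1, by omega⟩
  let z2 : Fin m := ⟨2, by omega⟩
  let z3 : Fin m := ⟨3, by omega⟩
  have hoi : o ≠ i := by simp [o, i]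
  have ho2 : z2 ≠ o := by simp [o, z2]
  have hi2 : z2 ≠ i := by simp [i, z2]
  have ho3 : z3 ≠ o := by simp [o, z3]
  have hi3 : z3 ≠ i := by simp [i, z3]
  have h23 : z2 ≠ z3 := by simp [z2, z3]
  have keq : ∀ g h, φ g = φ h ↔ ψ g = ψ h := by
    intro g h
    rw [← mul_inv_eq_one, ← map_inv, ← map_mul, hk, map_mul, map_inv, mul_inv_eq_one]
  have pne : ∀ {j : Fin k} {x y : Fin m}, x ≠ y → (j, x) ≠ (j, y) :=
    fun h h' => h (Prod.ext_iff.mp h').2
  have hτ : ∀ j : Fin k, ∀ x : Fin m, ∃ h : H, x ≠ o → x ≠ i → φ h = cyc (j, o) (j, i) (j, x) := by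
    intro j x
    by_cases hx : x ≠ o ∧ x ≠ i
    · obtain ⟨h, hh⟩ := hφ.2 (j, o) (j, i) (j, x) rfl rfl (pne hoi) (pne hx.1.symm) (pne hx.2.symm)
      exact ⟨h, fun _ _ => hh⟩
    · exact ⟨1, fun h1 h2 => absurd ⟨h1, h2⟩ hx⟩
  choose τ hτ using hτ
  have hT3 : ∀ j x, x ≠ o → x ≠ i → Is3 (ψ (τ j x)) := by
    intro j x h1 h2
    apply is3_transfer hm hψ hk
    rw [hτ j x h1 h2]
    exact is3_cyc (pne hoi) (pne h1.symm) (pne h2.symm)
  have hTE : ∀ j x y, x ≠ o → x ≠ i → y ≠ o → y ≠ i → x ≠ y →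
      ∃ p, ψ (τ j x) p = ψ (τ j y) p ∧ ψ (τ j x) p ≠ p := by
    intro j x y h1 h2 h3 h4 h5
    have e1 : φ (τ j x) * φ (τ j y) = dt (j, o) (j, x) (j, i) (j, y) := by
      rw [hτ j x h1 h2, hτ j y h3 h4]
      exact cyc_dt (pne hoi) (pne h1.symm) (pne h2.symm) (pne h3.symm) (pne h4.symm) (pne h5)
    apply edge (hT3 j x h1 h2) (hT3 j y h3 h4)
    · rw [← map_mul, ← map_pow, ← hk, map_pow, map_mul, e1, pow_two]
      exact dt_sq (pne hoi) (pne h3.symm) (pne h2) (pne h5)
    · rw [← map_mul, Ne, ← hk, map_mul, e1]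
      intro h
      have := congrArg (fun f : Perm (Pt k m) => f (j, o)) h
      simp only [Perm.one_apply] at this
      rw [dt_p (pne hoi) (pne h3.symm)] at this
      exact pne h1 this
  have hTne : ∀ j x y, x ≠ o → x ≠ i → y ≠ o → y ≠ i → x ≠ y → ψ (τ j x) ≠ ψ (τ j y) := by
    intro j x y h1 h2 h3 h4 h5
    rw [Ne, ← keq, hτ j x h1 h2, hτ j y h3 h4]
    intro h
    have := congrArg (fun f : Perm (Pt k m) => f (j, i)) h
    rw [cyc_b (pne h1.symm) (pne h2.symm), cyc_b (pne h3.symm) (pne h4.symm)] at this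
    exact pne h5 this
  have hp : ∀ j, ∃ p, ψ (τ j z2) p = ψ (τ j z3) p ∧ ψ (τ j z2) p ≠ p :=
    fun j => hTE j z2 z3 ho2 hi2 ho3 hi3 h23
  choose p hp1 hp2 using hp
  have hTp : ∀ j x, x ≠ o → x ≠ i → ψ (τ j x) (p j) = ψ (τ j z2) (p j) := by
    intro j x h1 h2
    by_cases x2 : x = z2
    · rw [x2]
    by_cases x3 : x = z3
    · rw [x3, ← hp1]
    exact clique (hT3 j z2 ho2 hi2) (hT3 j z3 ho3 hi3) (hT3 j x h1 h2) (hp1 j) (hp2 j)
      (hTne j z2 z3 ho2 hi2 ho3 hi3 h23) (hTE j z2 x ho2 hi2 h1 h2 (Ne.symm x2))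
      (hTE j z3 x ho3 hi3 h1 h2 (Ne.symm x3))
  let q : Fin k → Pt k m := fun j => ψ (τ j z2) (p j)
  have hpq : ∀ j, q j ≠ p j := hp2
  have hTq : ∀ j x, x ≠ o → x ≠ i → ψ (τ j x) (q j) ≠ q j ∧ ψ (τ j x) (q j) ≠ p j := by
    intro j x h1 h2
    have h3 := hTp j x h1 h2
    have h4 : ψ (τ j x) (p j) ≠ p j := by rw [h3]; exact hp2 j
    constructor
    · intro h
      apply hpq j
      apply (ψ (τ j x)).injective
      rw [h, h3]
    · intro h
      apply (hT3 j x h1 h2).ne2 h4
      rw [h3]; exact h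
  let f : Pt k m → Pt k m := fun y =>
    if y.2 = o then p y.1 else if y.2 = i then q y.1 else ψ (τ y.1 y.2) (q y.1)
  have fo : ∀ j, f (j, o) = p j := fun j => by simp [f]
  have fi : ∀ j, f (j, i) = q j := fun j => by simp [f, hoi.symm]
  have fx : ∀ j x, x ≠ o → x ≠ i → f (j, x) = ψ (τ j x) (q j) := fun j x h1 h2 => by
    simp [f, h1, h2]
  have hcyc : ∀ j x, x ≠ o → x ≠ i → ψ (τ j x) = cyc (f (j, o)) (f (j, i)) (f (j, x)) := by
    intro j x h1 h2
    have h3 := hTp j x h1 h2
    have h4 : ψ (τ j x) (p j) ≠ p j := by rw [h3]; exact hp2 j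
    have h5 := (hT3 j x h1 h2).eq_cyc h4
    rw [h3] at h5
    rw [fo, fi, fx j x h1 h2]
    exact h5
  -- each f y is moved by some ψ (τ ..)
  have hmov : ∀ j x, ∃ x', x' ≠ o ∧ x' ≠ i ∧ ψ (τ j x') (f (j, x)) ≠ f (j, x) := by
    intro j x
    by_cases h1 : x = o
    · refine ⟨z2, ho2, hi2, ?_⟩
      rw [h1, fo]; exact hp2 j
    by_cases h2 : x = i
    · refine ⟨z2, ho2, hi2, ?_⟩
      rw [h2, fi]; exact (hTq j z2 ho2 hi2).1
    · refine ⟨x, h1, h2, ?_⟩
      rw [fx j x h1 h2]
      intro h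
      exact (hTq j x h1 h2).1 ((ψ (τ j x)).injective h)
  have hinj : Function.Injective f := by
    rintro ⟨j, x⟩ ⟨j', x'⟩ h
    by_cases hj : j = j'
    · subst hj
      by_cases x1 : x = o
      · subst x1
        by_cases y1 : x' = o
        · rw [y1]
        by_cases y2 : x' = i
        · subst y2; rw [fo, fi] at h; exact absurd h.symm (hpq j)
        · rw [fo, fx j x' y1 y2] at h; exact absurd h.symm (hTq j x' y1 y2).2
      by_cases x2 : x = i
      · subst x2
        by_cases y1 : x' = o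
        · subst y1; rw [fo, fi] at h; exact absurd h (hpq j)
        by_cases y2 : x' = i
        · rw [y2]
        · rw [fi, fx j x' y1 y2] at h; exact absurd h.symm (hTq j x' y1 y2).1
      by_cases y1 : x' = o
      · subst y1; rw [fo, fx j x x1 x2] at h; exact absurd h (hTq j x x1 x2).2
      by_cases y2 : x' = i
      · subst y2; rw [fi, fx j x x1 x2] at h; exact absurd h (hTq j x x1 x2).1
      by_contra hne
      have hxx : x ≠ x' := fun h => hne (by rw [h])
      apply hTne j x x' x1 x2 y1 y2 hxx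
      rw [hcyc j x x1 x2, hcyc j x' y1 y2, h]
    · exfalso
      obtain ⟨y, y1, y2, hy⟩ := hmov j x
      obtain ⟨y', y1', y2', hy'⟩ := hmov j' x'
      rw [← h] at hy'
      have hs := hT3 j y y1 y2
      have ht := hT3 j' y' y1' y2'
      -- they commute
      have hd : Perm.Disjoint (φ (τ j y)) (φ (τ j' y')) := by
        intro w
        rw [hτ j y y1 y2, hτ j' y' y1' y2']
        by_cases hw : w.1 = j
        · right
          apply cyc_o
          · rintro rfl; exact hj hw.symm
          · rintro rfl; exact hj hw.symm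
          · rintro rfl; exact hj hw.symm
        · left
          apply cyc_o
          · rintro rfl; exact hw rfl
          · rintro rfl; exact hw rfl
          · rintro rfl; exact hw rfl
      have hc : ∀ w, ψ (τ j y) (ψ (τ j' y') w) = ψ (τ j' y') (ψ (τ j y) w) := by
        intro w
        have hcm : ψ (τ j y * τ j' y') = ψ (τ j' y' * τ j y) :=
          (keq _ _).mp (by rw [map_mul, map_mul, hd.commute.eq])
        rw [← Perm.mul_apply, ← Perm.mul_apply, ← map_mul, ← map_mul, hcm]
      have hφo : φ (τ j' y') (j, o) = (j, o) := by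
        rw [hτ j' y' y1' y2']
        apply cyc_o
        · intro h; exact hj (Prod.ext_iff.mp h).1
        · intro h; exact hj (Prod.ext_iff.mp h).1
        · intro h; exact hj (Prod.ext_iff.mp h).1
      have hφo' : φ (τ j y) (j, o) = (j, i) := by
        rw [hτ j y y1 y2, cyc_a (pne hoi) (pne y1.symm)]
      generalize hw : f (j, x) = w at *
      have htw : ψ (τ j y) (ψ (τ j' y') w) ≠ ψ (τ j' y') w := by
        rw [hc]
        intro h
        exact hy ((ψ (τ j' y')).injective h)
      rcases hs.2.2 w _ hy htw with h6 | h6 | h6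
      · exact hy' h6
      · -- t = s
        have h7 : ψ (τ j y) = ψ (τ j' y') := by
          rw [hs.eq_cyc hy, ht.eq_cyc hy', h6, ← hc, h6]
        rw [← keq] at h7
        rw [h7, hφo] at hφo'
        exact pne hoi hφo'
      · -- t = s⁻¹
        have h8 : ψ (τ j' y') (ψ (τ j' y') w) = ψ (τ j y) w := by
          rw [h6, ← hc, ← hc, h6, hs.1]
        have h7 : ψ (τ j y) * ψ (τ j' y') = 1 := by
          rw [hs.eq_cyc hy, ht.eq_cyc hy', h8, h6]
          exact cyc_mul_inv hy.symm (hs.ne2 hy).symm (fun h => hy ((ψ (τ j y)).injective h.symm))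
        rw [← map_mul, ← hk, map_mul] at h7
        have h9 := congrArg (fun f : Perm (Pt k m) => f (j, o)) h7
        simp only [Perm.mul_apply, Perm.one_apply] at h9
        rw [hφo, hφo'] at h9
        exact pne hoi h9.symm
  let ρ : Perm (Pt k m) := Equiv.ofBijective f (Finite.injective_iff_bijective.mp hinj)
  have hρ : ∀ y, ρ y = f y := fun y => rfl
  let K : Subgroup H :=
    { carrier := {h | ψ h = ρ * φ h * ρ⁻¹}
      one_mem' := by simp
      mul_mem' := by
        intro a b ha hb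
        simp only [Set.mem_ofPred_eq] at *
        rw [map_mul, map_mul, ha, hb]; group
      inv_mem' := by
        intro a ha
        simp only [Set.mem_ofPred_eq] at *
        rw [map_inv, map_inv, ha]; group }
  have hKmem : ∀ h, h ∈ K ↔ ψ h = ρ * φ h * ρ⁻¹ := fun h => Iff.rfl
  refine ⟨ρ, fun h => ?_⟩
  have hle : Subgroup.closure {t | ∃ a b c : Pt k m, a.1 = b.1 ∧ a.1 = c.1 ∧ a ≠ b ∧
      a ≠ c ∧ b ≠ c ∧ t = cyc a b c} ≤ K.map φ := by
    rw [Subgroup.closure_le]
    rintro _ ⟨a, b, c, e1, e2, n1, n2, n3, rfl⟩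
    refine gen (K.map φ) {y | y.1 = a.1} (o := (a.1, o)) (i := (a.1, i)) rfl rfl (pne hoi) ?_
      a rfl b e1.symm n1 c e2.symm n2.symm n3.symm
    rintro ⟨j, x⟩ hx h1 h2
    simp only [Set.mem_ofPred_eq] at hx
    subst hx
    have h1' : x ≠ o := fun h => h1 (by rw [h])
    have h2' : x ≠ i := fun h => h2 (by rw [h])
    refine ⟨τ a.1 x, ?_, hτ _ _ h1' h2'⟩
    show ψ _ = _
    rw [hτ _ _ h1' h2', conj_cyc, hcyc _ _ h1' h2', hρ, hρ, hρ]
  obtain ⟨h', hh', he⟩ := hle (hgen h)
  rw [← he, ← (keq _ _).mp he]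
  exact hh'

end

section
variable {k m : ℕ}

theorem is3_of_three {α : Type*} [Fintype α] [DecidableEq α] {t : Perm α} (ht : t.IsThreeCycle) :
    Is3 t := by
  have h3 : ∀ a, t (t (t a)) = a := by
    intro a
    have h1 := pow_orderOf_eq_one t
    rw [ht.orderOf] at h1
    have := congrArg (fun f : Perm α => f a) h1
    simpa [pow_succ] using this
  refine ⟨h3, ?_, ?_⟩
  · have h1 : t.support.Nonempty := by rw [← Finset.card_pos, ht.card_support]; norm_num
    obtain ⟨a, ha⟩ := h1
    exact ⟨a, Perm.mem_support.mp ha⟩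
  · intro a b ha hb
    have n1 : a ≠ t a := ha.symm
    have n2 : t a ≠ t (t a) := fun h => n1 (t.injective h)
    have n3 : a ≠ t (t a) := by
      intro h
      have h5 := h3 a
      rw [← h] at h5
      exact ha h5
    have hsub : ({a, t a, t (t a)} : Finset α) ⊆ t.support := by
      intro x hx
      simp only [Finset.mem_insert, Finset.mem_singleton] at hx
      rw [Perm.mem_support]
      rcases hx with rfl | rfl | rfl
      · exact ha
      · exact n2.symm
      · exact fun h => n2 (t.injective h.symm)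
    have hcard : ({a, t a, t (t a)} : Finset α).card = 3 := Finset.card_eq_three.mpr
      ⟨a, t a, t (t a), n1, n3, n2, rfl⟩
    have heq := Finset.eq_of_subset_of_card_le hsub (by rw [ht.card_support, hcard])
    have : b ∈ t.support := Perm.mem_support.mpr hb
    rw [← heq] at this
    simpa using this

/-- block diagonal permutations -/
def blockHom (k m : ℕ) : (Fin k → Perm (Fin m)) →* Perm (Pt k m) where
  toFun σ :=
    { toFun := fun x => (x.1, σ x.1 x.2)
      invFun := fun x => (x.1, (σ x.1)⁻¹ x.2)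
      left_inv := fun x => by simp
      right_inv := fun x => by simp }
  map_one' := by refine Equiv.ext fun x => ?_; rfl
  map_mul' σ τ := by refine Equiv.ext fun x => ?_; rfl

theorem blockHom_apply (σ : Fin k → Perm (Fin m)) (x : Pt k m) :
    blockHom k m σ x = (x.1, σ x.1 x.2) := rfl

theorem blockHom_swap (j : Fin k) (a b : Fin m) :
    blockHom k m (Pi.mulSingle j (swap a b)) = swap (j, a) (j, b) := by
  refine Equiv.ext fun x => ?_
  obtain ⟨i, x⟩ := x
  rw [blockHom_apply]
  by_cases hi : i = j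
  · subst hi
    simp only [Pi.mulSingle_eq_same, swap_apply_def, Prod.mk.injEq, true_and]
    split_ifs <;> rfl
  · simp only [Pi.mulSingle_eq_of_ne hi, Perm.one_apply]
    rw [swap_apply_of_ne_of_ne] <;>
    · intro h
      exact hi (Prod.ext_iff.mp h).1

theorem blockHom_cyc (j : Fin k) (a b c : Fin m) :
    blockHom k m (Pi.mulSingle j (cyc a b c)) = cyc (j, a) (j, b) (j, c) := by
  rw [cyc, cyc, Pi.mulSingle_mul, map_mul, blockHom_swap, blockHom_swap]

/-- the hom into the permutations of the points -/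
def pointHom (k m : ℕ) : (Fin k → alternatingGroup (Fin m)) →* Perm (Pt k m) :=
  (blockHom k m).comp ((alternatingGroup (Fin m)).subtype.compLeft (Fin k))

theorem pointHom_apply (σ : Fin k → alternatingGroup (Fin m)) (x : Pt k m) :
    pointHom k m σ x = (x.1, (σ x.1 : Perm (Fin m)) x.2) := rfl

theorem pointHom_single (j : Fin k) (σ : alternatingGroup (Fin m)) :
    pointHom k m (Pi.mulSingle j σ) = blockHom k m (Pi.mulSingle j (σ : Perm (Fin m))) := by
  refine Equiv.ext fun x => ?_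
  obtain ⟨i, x⟩ := x
  rw [pointHom_apply, blockHom_apply]
  by_cases hi : i = j
  · subst hi; simp
  · simp [Pi.mulSingle_eq_of_ne hi]

theorem pointHom_inj : Function.Injective (pointHom k m) := by
  intro σ τ h
  funext j
  apply Subtype.ext
  refine Equiv.ext fun x => ?_
  have := congrArg (fun f : Perm (Pt k m) => f (j, x)) h
  exact (Prod.ext_iff.mp this).2

theorem cyc_even {a b c : Fin m} (hab : a ≠ b) (hbc : b ≠ c) :
    cyc a b c ∈ alternatingGroup (Fin m) := by
  rw [cyc, Perm.mem_alternatingGroup, Perm.sign_mul, Perm.sign_swap hab, Perm.sign_swap hbc]; rfl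

theorem pointHom_cyc {a b c : Pt k m} (h1 : a.1 = b.1) (h2 : a.1 = c.1) (hab : a ≠ b)
    (hbc : b ≠ c) : ∃ σ, pointHom k m σ = cyc a b c := by
  obtain ⟨j, a⟩ := a
  obtain ⟨j', b⟩ := b
  obtain ⟨j'', c⟩ := c
  simp only at h1 h2
  subst h1; subst h2
  refine ⟨Pi.mulSingle j ⟨cyc a b c, cyc_even (fun h => hab (by rw [h])) (fun h => hbc (by rw [h]))⟩,
    ?_⟩
  rw [pointHom_single, blockHom_cyc]

theorem pointHom_gen (σ : Fin k → alternatingGroup (Fin m)) :
    pointHom k m σ ∈ Subgroup.closure {t | ∃ a b c : Pt k m, a.1 = b.1 ∧ a.1 = c.1 ∧ a ≠ b ∧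
      a ≠ c ∧ b ≠ c ∧ t = cyc a b c} := by
  set C := Subgroup.closure {t | ∃ a b c : Pt k m, a.1 = b.1 ∧ a.1 = c.1 ∧ a ≠ b ∧
      a ≠ c ∧ b ≠ c ∧ t = cyc a b c} with hC
  have h1 : ∀ j : Fin k, alternatingGroup (Fin m) ≤
      C.comap ((blockHom k m).comp (MonoidHom.mulSingle (fun _ => Perm (Fin m)) j)) := by
    intro j
    rw [← Perm.closure_three_cycles_eq_alternating, Subgroup.closure_le]
    intro t ht
    have ht3 := is3_of_three ht
    obtain ⟨p, hp⟩ := ht3.2.1
    show blockHom k m (Pi.mulSingle j t) ∈ C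
    rw [ht3.eq_cyc hp, blockHom_cyc]
    apply Subgroup.subset_closure
    refine ⟨(j, p), (j, t p), (j, t (t p)), rfl, rfl, ?_, ?_, ?_, rfl⟩
    · exact fun h => hp (Prod.ext_iff.mp h).2.symm
    · exact fun h => ht3.ne2 hp (Prod.ext_iff.mp h).2.symm
    · exact fun h => hp (t.injective (Prod.ext_iff.mp h).2.symm)
  have h2 : σ ∈ C.comap (pointHom k m) := by
    apply Subgroup.pi_mem_of_mulSingle_mem
    intro j
    show pointHom k m (Pi.mulSingle j (σ j)) ∈ C
    rw [pointHom_single]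
    exact h1 j (σ j).2
  exact h2

theorem centralizer_trivial (hm : 7 ≤ m) {H : Type*} [Group H] {φ : H →* Perm (Pt k m)}
    (hφ : Full φ) (c : Perm (Pt k m)) (hc : ∀ h, c * φ h = φ h * c) : c = 1 := by
  refine Equiv.ext fun y => ?_
  by_contra hy
  rw [Perm.one_apply] at hy
  obtain ⟨z, hz, hzn⟩ := fresh hm {y, c y} (Finset.card_le_two.trans (by norm_num)) y.1
  simp only [Finset.mem_insert, Finset.mem_singleton, not_or] at hzn
  obtain ⟨w, hw, hwn⟩ := fresh hm {y, c y, z} (Finset.card_le_three.trans (by norm_num)) y.1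
  simp only [Finset.mem_insert, Finset.mem_singleton, not_or] at hwn
  obtain ⟨h, hh⟩ := hφ.2 y z w hz.symm hw.symm (Ne.symm hzn.1) (Ne.symm hwn.1) (Ne.symm hwn.2.2)
  have h1 := congrArg (fun f : Perm (Pt k m) => f y) (hc h)
  simp only [Perm.mul_apply] at h1
  rw [hh, cyc_a (Ne.symm hzn.1) (Ne.symm hwn.1), cyc_o hy (Ne.symm hzn.2) (Ne.symm hwn.2.1)] at h1
  exact hzn.1 (c.injective h1)

/-- A chief factor isomorphic to a power of an alternating group of degree at least seven is
realised by an action on points. -/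
theorem realise (hm : 7 ≤ m) {G : Type*} [Group G] (N M : Subgroup G) [hN : N.Normal] [hM : M.Normal]
    (θ : M →* (Fin k → alternatingGroup (Fin m))) (hθ : Function.Surjective θ)
    (hker : ∀ x : M, θ x = 1 ↔ (x : G) ∈ N) :
    ∃ (κ : G →* Perm (Fin k)) (ρ : G →* Perm (Fin k × Fin m)),
      (∀ g x, (ρ g x).1 = κ g x.1) ∧ (∀ g ∈ M, κ g = 1) ∧
      (∀ σ : Fin k → alternatingGroup (Fin m), ∃ g ∈ M, ∀ x,
        ρ g x = (x.1, (σ x.1 : Perm (Fin m)) x.2)) ∧
      (∀ g ∈ M, ρ g = 1 ↔ g ∈ N) := by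
  classical
  let φ : M →* Perm (Pt k m) := (pointHom k m).comp θ
  have hφa : ∀ x, φ x = pointHom k m (θ x) := fun _ => rfl
  have hφ1 : ∀ x, φ x = 1 ↔ (x : G) ∈ N := by
    intro x
    rw [← hker x, hφa, ← map_one (pointHom k m)]
    exact pointHom_inj.eq_iff
  have hφ : Full φ := by
    refine ⟨fun h x => rfl, fun a b c h1 h2 hab _ hbc => ?_⟩
    obtain ⟨σ, hσ⟩ := pointHom_cyc h1 h2 hab hbc
    obtain ⟨h, rfl⟩ := hθ σ
    exact ⟨h, hσ⟩
  let ψ : G → (M →* Perm (Pt k m)) := fun g => φ.comp (MulAut.conjNormal g).toMonoidHom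
  have hψa : ∀ g x, ψ g x = φ (MulAut.conjNormal g x) := fun _ _ => rfl
  have hψ : ∀ g, Full (ψ g) := by
    intro g
    refine ⟨fun h x => rfl, fun a b c h1 h2 h3 h4 h5 => ?_⟩
    obtain ⟨h, hh⟩ := hφ.2 a b c h1 h2 h3 h4 h5
    refine ⟨(MulAut.conjNormal g).symm h, ?_⟩
    rw [hψa, MulEquiv.apply_symm_apply, hh]
  have hk : ∀ g h, φ h = 1 ↔ ψ g h = 1 := by
    intro g h
    rw [hψa, hφ1, hφ1, MulAut.conjNormal_apply]
    constructor
    · intro hx
      exact hN.conj_mem _ hx g
    · intro hx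
      have := hN.conj_mem _ hx g⁻¹
      simpa [mul_assoc] using this
  have hex : ∀ g, ∃ ρ : Perm (Pt k m), ∀ h, ψ g h = ρ * φ h * ρ⁻¹ := fun g =>
    transfer hm hφ (hψ g) (fun h => pointHom_gen _) (hk g)
  choose ρ hρ using hex
  have huniq : ∀ ρ₁ ρ₂ : Perm (Pt k m), (∀ h, ρ₁ * φ h * ρ₁⁻¹ = ρ₂ * φ h * ρ₂⁻¹) → ρ₁ = ρ₂ := by
    intro ρ₁ ρ₂ h
    have h1 := centralizer_trivial hm hφ (ρ₂⁻¹ * ρ₁) (fun x => by
      have h2 : ρ₁ * φ x = ρ₂ * φ x * ρ₂⁻¹ * ρ₁ := by
        rw [← h x]; group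
      rw [mul_assoc, h2]; group)
    rw [inv_mul_eq_one] at h1
    exact h1.symm
  have hmul : ∀ g h, ρ (g * h) = ρ g * ρ h := by
    intro g h
    apply huniq
    intro x
    rw [← hρ, hψa, map_mul, MulAut.mul_apply, ← hψa, hρ, ← hψa, hρ]
    group
  have hM' : ∀ g (hg : g ∈ M), ρ g = φ ⟨g, hg⟩ := by
    intro g hg
    apply huniq
    intro x
    rw [← hρ, hψa, ← map_inv, ← map_mul, ← map_mul]
    congr 1
  let ρ' : G →* Perm (Pt k m) := MonoidHom.mk' ρ hmul
  have hρ' : ∀ g, ρ' g = ρ g := fun _ => rfl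
  have hblock : ∀ g (x y : Pt k m), x.1 = y.1 → (ρ g x).1 = (ρ g y).1 := by
    intro g x y hxy
    by_cases hne : x = y
    · rw [hne]
    obtain ⟨w, hw, hwn⟩ := fresh hm {x, y} (Finset.card_le_two.trans (by norm_num)) x.1
    simp only [Finset.mem_insert, Finset.mem_singleton, not_or] at hwn
    obtain ⟨h, hh⟩ := hφ.2 x y w hxy hw.symm hne (Ne.symm hwn.1) (Ne.symm hwn.2)
    have h1 := hρ g h
    have h2 : ψ g h (ρ g x) = ρ g y := by
      have h3 : (ρ g)⁻¹ (ρ g x) = x := by
        rw [← Perm.mul_apply, inv_mul_cancel, Perm.one_apply]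
      rw [h1, Perm.mul_apply, Perm.mul_apply, h3, hh, cyc_a hne (Ne.symm hwn.1)]
    rw [← h2, (hψ g).1]
  have hm0 : 0 < m := by omega
  let κ : G →* Function.End (Fin k) :=
    { toFun := fun g j => (ρ g (j, ⟨0, hm0⟩)).1
      map_one' := by
        funext j
        have : ρ 1 = 1 := ρ'.map_one
        rw [this]; rfl
      map_mul' := by
        intro g h
        funext j
        show (ρ (g * h) (j, ⟨0, hm0⟩)).1 = (ρ g ((ρ h (j, ⟨0, hm0⟩)).1, ⟨0, hm0⟩)).1
        rw [hmul, Perm.mul_apply]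
        exact hblock g _ _ rfl }
  refine ⟨κ.toHomPerm, ρ', ?_, ?_, ?_, ?_⟩
  · intro g x
    exact hblock g x (x.1, ⟨0, hm0⟩) rfl
  · intro g hg
    refine Equiv.ext fun j => ?_
    show (ρ g (j, ⟨0, hm0⟩)).1 = j
    rw [hM' g hg, hφ.1]
  · intro σ
    obtain ⟨g, rfl⟩ := hθ σ
    refine ⟨g, g.2, fun x => ?_⟩
    rw [hρ', hM' g g.2]
    rfl
  · intro g hg
    rw [hρ', hM' g hg, hφ1]

end

/-! ### The theorem -/

/-- The family `a` invariably generates `G`: however each member is replaced by one of its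
conjugates, the resulting elements generate `G`. For `ι = Fin 2` this is the notion of the problem. -/
def InvGen {G ι : Type*} [Group G] (a : ι → G) : Prop :=
  ∀ g : ι → G, Subgroup.closure (Set.range fun i => (g i)⁻¹ * a i * g i) = ⊤

/-- `x` has prime power order dividing `e` (the order `1` is allowed). -/
def PPow {G : Type*} [Group G] (e : ℕ) (x : G) : Prop :=
  ∃ p α : ℕ, p.Prime ∧ p ^ α ∣ e ∧ x ^ p ^ α = 1

/-- `M / N` is a chief factor of `G`. -/
def IsChief {G : Type*} [Group G] (N M : Subgroup G) : Prop :=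
  N.Normal ∧ M.Normal ∧ N < M ∧
    ∀ K : Subgroup G, K.Normal → N ≤ K → K ≤ M → K = N ∨ K = M

/-- Realised alternating factor: `G` acts (by `ρ`) on `k` blocks of `m` points, permuting the blocks
(by `κ`), in such a way that `M` fixes every block, the kernel of the action of `M` is `N`, and `M`
induces at least all `k`-tuples of even permutations of the blocks. (Only used in the proof.) -/
def AltReal {G : Type*} [Group G] (N M : Subgroup G) (k m : ℕ) : Prop :=
  ∃ (κ : G →* Perm (Fin k)) (ρ : G →* Perm (Fin k × Fin m)),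
    (∀ g x, (ρ g x).1 = κ g x.1) ∧ (∀ g ∈ M, κ g = 1) ∧
    (∀ σ : Fin k → alternatingGroup (Fin m), ∃ g ∈ M, ∀ x,
      ρ g x = (x.1, (σ x.1 : Perm (Fin m)) x.2)) ∧
    (∀ g ∈ M, ρ g = 1 ↔ g ∈ N)

/-- Alternating factor: `M / N` is isomorphic to the direct power `Alt(m) ^ k`, that is, there is a
surjective homomorphism from `M` to `Alt(m) ^ k` with kernel `N`. -/
def AltFactor {G : Type*} [Group G] (N M : Subgroup G) (k m : ℕ) : Prop :=
  ∃ θ : M →* (Fin k → alternatingGroup (Fin m)), Function.Surjective θ ∧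
    ∀ x : M, θ x = 1 ↔ (x : G) ∈ N

/-- Linear factor of degree at most `D`: `M / N` embeds in a direct power of `GL_D(F)`, `F` some
field. -/
def LinFactor {G : Type*} [Group G] (N M : Subgroup G) (D : ℕ) : Prop :=
  ∃ (κ F : Type) (_ : Field F) (f : M →* (κ → GL (Fin D) F)), ∀ x, f x = 1 ↔ (x : G) ∈ N

/-- Every chief factor of `G` is abelian, or a direct power of an alternating group (of any degree),
or linear of degree at most `D` (over any field). -/
def InClass (D : ℕ) (G : Type*) [Group G] : Prop :=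
  ∀ N M : Subgroup G, IsChief N M →
    (∀ x ∈ M, ∀ y ∈ M, x * y * x⁻¹ * y⁻¹ ∈ N) ∨ (∃ k m, AltFactor N M k m) ∨ LinFactor N M D

/-- no alternating factor of large degree -/
theorem no_large {G ι : Type*} [Group G] {N M : Subgroup G} {k m e : ℕ} (he : 2 ≤ e)
    (hm : e < m) (hk : 0 < k) (hA : AltReal N M k m) (a : ι → G)
    (ha : ∀ i, PPow e (a i)) (hinv : InvGen a) : False := by
  classical
  obtain ⟨κ, ρ, hκρ, hκM, hσ, -⟩ := hA
  have hfib : ∀ i : Fin k, (Finset.univ.filter
      (fun x : Fin k × Fin m => x.1 = i)).card = m := by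
    intro i
    have : Finset.univ.filter (fun x : Fin k × Fin m => x.1 = i) =
        (Finset.univ : Finset (Fin m)).map ⟨fun y => (i, y), fun y z h => (Prod.ext_iff.mp h).2⟩ := by
      ext ⟨x, y⟩
      rw [Finset.mem_filter, Finset.mem_map]
      constructor
      · rintro ⟨-, h⟩
        exact ⟨y, Finset.mem_univ _, Prod.ext h.symm rfl⟩
      · rintro ⟨z, -, h⟩
        exact ⟨Finset.mem_univ _, (Prod.ext_iff.mp h).1.symm⟩
    rw [this, Finset.card_map, Finset.card_univ, Fintype.card_fin]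
  have hSex : ∀ i : ι, ∃ S : Finset (Fin k × Fin m), (∀ x ∈ S, ρ (a i) x ∈ S) ∧
      ∀ j, (S.filter (fun x => x.1 = j)).card = e := by
    intro i
    obtain ⟨p, α, hp, hdvd, hpow⟩ := ha i
    exact block_subset (fun x : Fin k × Fin m => x.1) (ρ (a i)) (κ (a i))
      (fun x => hκρ _ x) hp rfl (by rw [← map_pow, hpow, map_one])
      (by rw [← map_pow, hpow, map_one]) hdvd hm.le hfib
  choose S hSinv hScard using hSex
  obtain ⟨T₀, -, hT₀⟩ := Finset.exists_subset_card_eq (s := (Finset.univ : Finset (Fin m)))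
    (n := e) (by rw [Finset.card_univ, Fintype.card_fin]; exact hm.le)
  -- movers
  have hmove : ∀ i, ∃ g ∈ M, ∀ x : Fin k × Fin m, x.2 ∈ T₀ ↔ ρ g x ∈ S i := by
    intro i
    have hj : ∀ j : Fin k, ∃ σ : alternatingGroup (Fin m), ∀ y,
        y ∈ T₀ ↔ (j, (σ : Perm (Fin m)) y) ∈ S i := by
      intro j
      let t : Finset (Fin m) := Finset.univ.filter (fun y => (j, y) ∈ S i)
      have htc : t.card = e := by
        rw [← hScard i j]
        apply Finset.card_bij (fun y _ => (j, y))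
        · intro y hy
          rw [Finset.mem_filter] at hy ⊢
          exact ⟨hy.2, rfl⟩
        · intro y _ z _ h; exact (Prod.ext_iff.mp h).2
        · rintro ⟨x, y⟩ hxy
          rw [Finset.mem_filter] at hxy
          obtain ⟨h1, h2⟩ := hxy
          simp only at h2
          subst h2
          exact ⟨y, Finset.mem_filter.mpr ⟨Finset.mem_univ _, h1⟩, rfl⟩
      obtain ⟨σ, hσ'⟩ := alt_homog T₀ t (by rw [hT₀, htc]) (by omega)
      refine ⟨σ, fun y => ?_⟩
      rw [hσ' y, Finset.mem_filter]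
      simp
    choose σ hσ' using hj
    obtain ⟨g, hg, hgx⟩ := hσ σ
    refine ⟨g, hg, fun x => ?_⟩
    rw [hgx, hσ' x.1 x.2]
  choose g hgM hg using hmove
  -- the stabiliser
  let K : Subgroup G :=
    { carrier := {z | ∀ x : Fin k × Fin m, x.2 ∈ T₀ ↔ (ρ z x).2 ∈ T₀}
      one_mem' := by intro x; simp
      mul_mem' := by
        intro y z hy hz x
        rw [map_mul, Perm.mul_apply, ← hy, ← hz]
      inv_mem' := by
        intro y hy x
        rw [hy (ρ y⁻¹ x), ← Perm.mul_apply, ← map_mul, mul_inv_cancel, map_one, Perm.one_apply] }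
  have hfinite : ∀ i, ∀ x, x ∈ S i ↔ ρ (a i) x ∈ S i := by
    intro i x
    obtain ⟨p, α, hp, -, hpow⟩ := ha i
    exact ⟨hSinv i x, bwd (ρ (a i)) (pow_pos hp.pos α) (by rw [← map_pow, hpow, map_one]) (hSinv i)⟩
  have hKtop : K = ⊤ := by
    rw [eq_top_iff, ← hinv g, Subgroup.closure_le]
    rintro _ ⟨i, rfl⟩
    intro x
    have h1 := hg i x
    have h2 := hfinite i (ρ (g i) x)
    have h3 := hg i (ρ (g i)⁻¹ (ρ (a i) (ρ (g i) x)))
    rw [← Perm.mul_apply (ρ (g i)), ← map_mul, mul_inv_cancel, map_one, Perm.one_apply] at h3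
    show x.2 ∈ T₀ ↔ (ρ ((g i)⁻¹ * a i * g i) x).2 ∈ T₀
    rw [map_mul, map_mul, Perm.mul_apply, Perm.mul_apply, h1, h2, h3]
  -- an element moving T₀
  obtain ⟨x₀, hx₀⟩ : T₀.Nonempty := by rw [← Finset.card_pos]; omega
  obtain ⟨y₀, hy₀⟩ : ∃ y, y ∉ T₀ := by
    by_contra hcon
    push Not at hcon
    have : T₀ = Finset.univ := by ext y; simp [hcon y]
    rw [this, Finset.card_univ, Fintype.card_fin] at hT₀
    omega
  have hcard1 : (insert y₀ (T₀.erase x₀)).card = T₀.card := by
    rw [Finset.card_insert_of_notMem (by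
      intro h; exact hy₀ (Finset.mem_of_mem_erase h)), Finset.card_erase_of_mem hx₀]
    have : 0 < T₀.card := Finset.card_pos.mpr ⟨x₀, hx₀⟩
    omega
  obtain ⟨σ, hσ1⟩ := alt_homog T₀ (insert y₀ (T₀.erase x₀)) hcard1.symm (by omega)
  obtain ⟨z, hzM, hz⟩ := hσ (fun _ => σ)
  have hzK : z ∈ K := by rw [hKtop]; trivial
  have hcontra := hzK (⟨0, hk⟩, (σ : Perm (Fin m))⁻¹ y₀)
  rw [hz] at hcontra
  have h5 : (σ : Perm (Fin m)) ((σ : Perm (Fin m))⁻¹ y₀) = y₀ := by
    rw [← Perm.mul_apply, mul_inv_cancel, Perm.one_apply]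
  simp only [h5] at hcontra
  rw [hσ1 ((σ : Perm (Fin m))⁻¹ y₀), h5] at hcontra
  exact hy₀ (hcontra.mp (Finset.mem_insert_self _ _))


theorem inj_of_ne {H K : Type*} [Group H] [Group K] [IsSimpleGroup H] (f : H →* K) {x : H}
    (hx : f x ≠ 1) : Function.Injective f := by
  have hk : f.ker ≠ ⊤ := by
    intro h
    apply hx
    rw [← MonoidHom.mem_ker, h]
    trivial
  rw [← MonoidHom.ker_eq_bot_iff]
  exact (Subgroup.Normal.eq_bot_or_eq_top (inferInstance : f.ker.Normal)).resolve_right hk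

theorem alt_noncomm {n : ℕ} (h5 : 5 ≤ n) :
    ¬ ∀ x y : alternatingGroup (Fin n), x * y = y * x := by
  intro hcomm
  let a : Fin n := ⟨0, by omega⟩
  let b : Fin n := ⟨1, by omega⟩
  let c : Fin n := ⟨2, by omega⟩
  let d : Fin n := ⟨3, by omega⟩
  have hab : a ≠ b := by simp [a, b]
  have hbc : b ≠ c := by simp [b, c]
  have hac : a ≠ c := by simp [a, c]
  have had : a ≠ d := by simp [a, d]
  have hbd : b ≠ d := by simp [b, d]
  have hcd : c ≠ d := by simp [c, d]
  let σ : alternatingGroup (Fin n) := ⟨Equiv.swap a b * Equiv.swap b c, by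
    rw [Perm.mem_alternatingGroup, Perm.sign_mul, Perm.sign_swap hab, Perm.sign_swap hbc]; rfl⟩
  let τ : alternatingGroup (Fin n) := ⟨Equiv.swap a b * Equiv.swap b d, by
    rw [Perm.mem_alternatingGroup, Perm.sign_mul, Perm.sign_swap hab, Perm.sign_swap hbd]; rfl⟩
  have h := congrArg (fun z : alternatingGroup (Fin n) => (z : Perm (Fin n)) a) (hcomm σ τ)
  have h1 : (σ : Perm (Fin n)) b = c := by
    show (Equiv.swap a b * Equiv.swap b c) b = c
    rw [Perm.mul_apply, Equiv.swap_apply_left, Equiv.swap_apply_of_ne_of_ne hac.symm hbc.symm]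
  have h2 : (τ : Perm (Fin n)) a = b := by
    show (Equiv.swap a b * Equiv.swap b d) a = b
    rw [Perm.mul_apply, Equiv.swap_apply_of_ne_of_ne hab had, Equiv.swap_apply_left]
  have h3 : (σ : Perm (Fin n)) a = b := by
    show (Equiv.swap a b * Equiv.swap b c) a = b
    rw [Perm.mul_apply, Equiv.swap_apply_of_ne_of_ne hab hac, Equiv.swap_apply_left]
  have h4 : (τ : Perm (Fin n)) b = d := by
    show (Equiv.swap a b * Equiv.swap b d) b = d
    rw [Perm.mul_apply, Equiv.swap_apply_left, Equiv.swap_apply_of_ne_of_ne had.symm hbd.symm]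
  have h5 : (σ : Perm (Fin n)) ((τ : Perm (Fin n)) a) = (τ : Perm (Fin n)) ((σ : Perm (Fin n)) a) := h
  rw [h2, h3, h1, h4] at h5
  exact hcd h5

/-- the elements of order dividing one do not generate a nontrivial group -/
theorem e_ne_one {G ι : Type*} [Group G] {a : ι → G} (ha : ∀ i, PPow 1 (a i)) (hinv : InvGen a)
    (x : G) : x = 1 := by
  have h := hinv (fun _ => 1)
  have h1 : Subgroup.closure (Set.range fun i => ((fun _ => 1 : ι → G) i)⁻¹ * a i *
      (fun _ => 1 : ι → G) i) ≤ ⊥ := by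
    rw [Subgroup.closure_le]
    rintro _ ⟨i, rfl⟩
    obtain ⟨p, α, -, hdvd, hpow⟩ := ha i
    rw [Nat.dvd_one.mp hdvd, pow_one] at hpow
    simp [hpow]
  rw [h] at h1
  exact Subgroup.mem_bot.mp (h1 (Subgroup.mem_top x))


end Pool.Agent.H61.IG.Alt
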