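import Pool.Agent.H61.IG.Basic

/-!
# Non-abelian minimal normal subgroups of invariably generated groups are simple
-/

namespace Pool.Agent.H61.IG

variable {G : Type*} [Group G]

/-- the elements fixing `K` under conjugation -/
def stab (K : Subgroup G) : Subgroup G where
  carrier := {g | cj g K = K}
  one_mem' := cj_one K
  mul_mem' := by
    intro g h hg hh
    change cj (g * h) K = K
    rw [cj_mul, show cj h K = K from hh, show cj g K = K from hg]
  inv_mem' := by
    intro g hg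
    change cj g⁻¹ K = K
    have : cj g K = K := hg
    conv_lhs => rw [← this]
    rw [cj_inv_cj]

theorem mem_stab {g : G} {K : Subgroup G} : g ∈ stab K ↔ cj g K = K := Iff.rfl

theorem fixed_sylow [Finite G] {p r : ℕ} [Fact p.Prime] [Fact r.Prime] {ω : Subgroup G} {a : G}
    (ha : a ^ p = 1) (hω : cj a ω = ω) (hr : r = p ∨ ¬ p ∣ Nat.card ω) :
    ∃ R, Syl r ω R ∧ cj a R = R := by
  classical
  let α := {R : Subgroup G // Syl r ω R}
  have : Finite α := Finite.of_equiv _ (sylEquiv r ω)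
  let _ : Fintype α := Fintype.ofFinite α
  have hω' : cj a⁻¹ ω = ω := (stab ω).inv_mem hω
  let σ : Equiv.Perm α :=
    { toFun := fun R => ⟨cj a R.1, by have := R.2.cj a; rwa [hω] at this⟩
      invFun := fun R => ⟨cj a⁻¹ R.1, by have := R.2.cj a⁻¹; rwa [hω'] at this⟩
      left_inv := fun R => Subtype.ext (cj_inv_cj _ _)
      right_inv := fun R => Subtype.ext (cj_cj_inv _ _) }
  have hpow : ∀ (n : ℕ) (R : α), ((σ ^ n) R).1 = cj (a ^ n) R.1 := by
    intro n
    induction n with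
    | zero => intro R; simp [cj_one]
    | succ n ih =>
      intro R
      rw [pow_succ', Equiv.Perm.mul_apply, pow_succ', cj_mul, ← ih]
      rfl
  have hσ : σ ^ p ^ 1 = 1 := by
    ext1 R
    apply Subtype.ext
    rw [pow_one, hpow, ha, cj_one]
    rfl
  have hcard : Nat.card α = Nat.card (Sylow r ω) := (Nat.card_congr (sylEquiv r ω)).symm
  have hndvd : ¬ p ∣ Fintype.card α := by
    rw [← Nat.card_eq_fintype_card, hcard]
    rcases hr with hr | hr
    · subst hr
      intro hd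
      have h1 := card_sylow_modEq_one r ω
      have h2 : Nat.card (Sylow r ω) ≡ 0 [MOD r] := (Nat.modEq_zero_iff_dvd).2 hd
      have h3 := h2.symm.trans h1
      have h4 := (Nat.modEq_iff_dvd' (by norm_num : 0 ≤ 1)).1 h3
      have h5 : r = 1 := Nat.dvd_one.1 (by simpa using h4)
      exact (Fact.out : r.Prime).ne_one h5
    · intro hd
      apply hr
      obtain ⟨P⟩ : Nonempty (Sylow r ω) := inferInstance
      exact hd.trans ((Sylow.card_dvd_index P).trans (Subgroup.index_dvd_card _))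
  obtain ⟨R, hR⟩ := Equiv.Perm.exists_fixed_point_of_prime hndvd hσ
  exact ⟨R.1, R.2, congrArg Subtype.val hR⟩

theorem section_fix {Ω : Set (Subgroup G)} {S : Subgroup G → Subgroup G → Prop}
    {c : G} {ℓ : ℕ} (hℓ : ℓ.Prime) (hc : c ^ ℓ = 1) (hΩ : ∀ ω ∈ Ω, ∀ g, cj g ω ∈ Ω)
    (hS : ∀ ω R g, S ω R → S (cj g ω) (cj g R)) (hne : ∀ ω ∈ Ω, ∃ R, S ω R)
    (hfix : ∀ ω ∈ Ω, cj c ω = ω → ∃ R, S ω R ∧ cj c R = R) :
    ∃ σ : Subgroup G → Subgroup G, (∀ ω ∈ Ω, S ω (σ ω)) ∧ ∀ ω ∈ Ω, σ (cj c ω) = cj c (σ ω) := by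
  classical
  let s : Setoid (Subgroup G) :=
    { r := fun ω ω' => ∃ i : ℤ, cj (c ^ i) ω = ω'
      iseqv :=
        { refl := fun ω => ⟨0, by rw [zpow_zero, cj_one]⟩
          symm := by
            rintro ω ω' ⟨i, rfl⟩
            exact ⟨-i, by rw [zpow_neg, cj_inv_cj]⟩
          trans := by
            rintro ω ω' ω'' ⟨i, rfl⟩ ⟨j, rfl⟩
            exact ⟨j + i, by rw [zpow_add, cj_mul]⟩ } }
  let rep : Subgroup G → Subgroup G := fun ω => (Quotient.mk s ω).out
  have hrep : ∀ ω, ∃ i : ℤ, cj (c ^ i) (rep ω) = ω := fun ω => Quotient.mk_out (s := s) ω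
  have hrepc : ∀ ω, rep (cj c ω) = rep ω := by
    intro ω
    have : Quotient.mk s (cj c ω) = Quotient.mk s ω := by
      apply Quotient.sound
      exact ⟨-1, by rw [zpow_neg, zpow_one, cj_inv_cj]⟩
    change (Quotient.mk s (cj c ω)).out = _
    rw [this]
  choose i hi using hrep
  have hR : ∀ ρ, ∃ R, ρ ∈ Ω → S ρ R ∧ (cj c ρ = ρ → cj c R = R) := by
    intro ρ
    by_cases hρ : ρ ∈ Ω
    · by_cases hf : cj c ρ = ρ
      · obtain ⟨R, h1, h2⟩ := hfix ρ hρ hf
        exact ⟨R, fun _ => ⟨h1, fun _ => h2⟩⟩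
      · obtain ⟨R, h1⟩ := hne ρ hρ
        exact ⟨R, fun _ => ⟨h1, fun h => absurd h hf⟩⟩
    · exact ⟨⊥, fun h => absurd h hρ⟩
  choose R hR using hR
  have key : ∀ ρ ∈ Ω, ∀ m : ℤ, cj (c ^ m) ρ = ρ → cj (c ^ m) (R ρ) = R ρ := by
    intro ρ hρ m hm
    by_cases hd : (ℓ : ℤ) ∣ m
    · obtain ⟨k, rfl⟩ := hd
      rw [zpow_mul, zpow_natCast, hc, one_zpow, cj_one]
    · have hcop : IsCoprime (ℓ : ℤ) m := by
        rw [Int.isCoprime_iff_gcd_eq_one]
        have h1 := (Nat.Prime.coprime_iff_not_dvd hℓ (n := m.natAbs)).2 (by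
          intro h; exact hd (Int.natCast_dvd.2 h))
        simpa [Int.gcd] using h1
      obtain ⟨u, v, huv⟩ := hcop
      have hc1 : c = (c ^ m) ^ v := by
        rw [← zpow_mul, mul_comm m v]
        have : c ^ (u * (ℓ : ℤ) + v * m) = c := by rw [huv, zpow_one]
        rw [zpow_add, mul_comm u, zpow_mul, zpow_natCast, hc, one_zpow, one_mul] at this
        exact this.symm
      have h2 : cj c ρ = ρ := by
        have := (stab ρ).zpow_mem hm v
        rw [← hc1] at this
        exact this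
      have h3 := (hR ρ hρ).2 h2
      exact (stab (R ρ)).zpow_mem h3 m
  refine ⟨fun ω => cj (c ^ i ω) (R (rep ω)), ?_, ?_⟩
  · intro ω hω
    have hρ : rep ω ∈ Ω := by
      have := hΩ ω hω (c ^ i ω)⁻¹
      rwa [show cj (c ^ i ω)⁻¹ ω = rep ω by
        conv_lhs => rw [← hi ω]
        rw [hi ω]
        nth_rewrite 2 [← hi ω]
        rw [cj_inv_cj]] at this
    have := hS _ _ (c ^ i ω) (hR _ hρ).1
    rwa [hi ω] at this
  · intro ω hω
    have hρ : rep ω ∈ Ω := by
      have := hΩ ω hω (c ^ i ω)⁻¹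
      rwa [show cj (c ^ i ω)⁻¹ ω = rep ω by
        nth_rewrite 2 [← hi ω]
        rw [cj_inv_cj]] at this
    change cj (c ^ i (cj c ω)) (R (rep (cj c ω))) = cj c (cj (c ^ i ω) (R (rep ω)))
    rw [hrepc]
    have h1 : cj (c ^ i (cj c ω)) (rep ω) = cj (c ^ (1 + i ω)) (rep ω) := by
      have h2 := hi (cj c ω)
      rw [hrepc] at h2
      rw [h2, zpow_add, zpow_one, cj_mul, hi]
    have h3 : cj (c ^ (-(1 + i ω) + i (cj c ω))) (rep ω) = rep ω := by
      rw [zpow_add, cj_mul, h1, zpow_neg, cj_inv_cj]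
    have h4 := key _ hρ _ h3
    rw [← cj_mul, ← zpow_one_add]
    have h5 : cj (c ^ (1 + i ω)) (cj (c ^ (-(1 + i ω) + i (cj c ω))) (R (rep ω)))
        = cj (c ^ (1 + i ω)) (R (rep ω)) := by rw [h4]
    rw [← cj_mul, ← zpow_add] at h5
    have h6 : (1 + i ω) + (-(1 + i ω) + i (cj c ω)) = i (cj c ω) := by ring
    rw [h6] at h5
    exact h5

theorem sections_conj [Finite G] {N : Subgroup G} {Ω : Set (Subgroup G)}
    (hΩ : ∀ ω ∈ Ω, MinN N ω) {S : Subgroup G → Subgroup G → Prop}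
    (hSle : ∀ ω R, S ω R → R ≤ ω)
    (hSconj : ∀ ω R R', S ω R → S ω R' → ∃ n ∈ ω, cj n R = R')
    (σ τ : Subgroup G → Subgroup G) (hσ : ∀ ω ∈ Ω, S ω (σ ω)) (hτ : ∀ ω ∈ Ω, S ω (τ ω)) :
    ∃ n ∈ N, ∀ ω ∈ Ω, cj n (σ ω) = τ ω := by
  classical
  have key : ∀ s : Finset (Subgroup G), (∀ ω ∈ s, ω ∈ Ω) →
      ∃ n ∈ N, (∀ ω ∈ Ω, ω ∉ s → ∀ x ∈ ω, n * x = x * n) ∧ ∀ ω ∈ s, cj n (σ ω) = τ ω := by
    intro s
    induction s using Finset.induction_on with
    | empty =>
      intro _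
      exact ⟨1, N.one_mem, fun ω _ _ x _ => by simp, by simp⟩
    | insert ω0 s h0 ih =>
      intro hs
      obtain ⟨n1, hn1, hc1, he1⟩ := ih (fun ω hω => hs ω (Finset.mem_insert_of_mem hω))
      have hω0 := hs ω0 (Finset.mem_insert_self _ _)
      obtain ⟨n0, hn0, he0⟩ := hSconj ω0 _ _ (hσ ω0 hω0) (hτ ω0 hω0)
      refine ⟨n0 * n1, N.mul_mem ((hΩ ω0 hω0).le hn0) hn1, ?_, ?_⟩
      · intro ω hω hns x hx
        rw [Finset.mem_insert, not_or] at hns
        rw [mul_assoc, hc1 ω hω hns.2 x hx, ← mul_assoc,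
          (hΩ ω0 hω0).comm (hΩ ω hω) (Ne.symm hns.1) hn0 hx, mul_assoc]
      · intro ω hω
        rw [Finset.mem_insert] at hω
        rw [cj_mul]
        rcases hω with rfl | hω
        · rw [cj_eq_of_comm (g := n1) (fun x hx => hc1 ω hω0 h0 x (hSle _ _ (hσ ω hω0) hx)), he0]
        · have hωΩ := hs ω (Finset.mem_insert_of_mem hω)
          rw [he1 ω hω]
          have hne : ω0 ≠ ω := fun h => h0 (h ▸ hω)
          exact cj_eq_of_comm (fun x hx => (hΩ ω0 hω0).comm (hΩ ω hωΩ) hne hn0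
            (hSle _ _ (hτ ω hωΩ) hx))
  have : Finite (Subgroup G) := inferInstance
  obtain ⟨n, hn, _, h⟩ := key (Set.toFinite Ω).toFinset (fun ω hω => by simpa using hω)
  exact ⟨n, hn, fun ω hω => h ω (by simpa using hω)⟩

theorem Syl.ne_bot [Finite G] {r : ℕ} [hr : Fact r.Prime] {ω R : Subgroup G} (h : Syl r ω R)
    (hd : r ∣ Nat.card ω) : R ≠ ⊥ := by
  intro hb
  obtain ⟨x, hx⟩ := exists_prime_orderOf_dvd_card' (G := ω) r hd
  have h1 : orderOf (x : G) = r := by rw [← hx]; exact Subgroup.orderOf_coe x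
  have h2 := h.2.2 (Subgroup.zpowers (x : G)) (by rw [Subgroup.zpowers_le]; exact x.2)
    (IsPGroup.of_card (n := 1) (by rw [Nat.card_zpowers, h1, pow_one])) (by rw [hb]; exact bot_le)
  rw [hb, Subgroup.zpowers_eq_bot] at h2
  rw [h2, orderOf_one] at h1
  exact hr.out.ne_one h1.symm

/-- the main argument: `b` fixes none of the conjugates of `T` -/
theorem core [Finite G] {p q : ℕ} (hp : p.Prime) (hq : q.Prime) {a b : G} (ha : a ^ p = 1)
    (hb : b ^ q = 1) (h : InvGen a b) {N T : Subgroup G} (hN : N.Normal) (hT : MinN N T)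
    (hTs : ∀ K : Subgroup G, K ≠ ⊥ → K ≤ T → (∀ t ∈ T, cj t K = K) → K = T)
    (hTn : ∃ x ∈ T, ∃ y ∈ T, x * y ≠ y * x) (hfpf : ∀ g : G, cj b (cj g T) ≠ cj g T) : False := by
  classical
  have : Fact p.Prime := ⟨hp⟩
  let Ω : Set (Subgroup G) := Set.range (fun g => cj g T)
  have hΩ1 : ∀ ω ∈ Ω, ∀ g, cj g ω ∈ Ω := by
    rintro _ ⟨g', rfl⟩ g
    exact ⟨g * g', cj_mul _ _ _⟩
  have hΩ2 : ∀ ω ∈ Ω, MinN N ω := by
    rintro _ ⟨g, rfl⟩
    exact hT.cj hN g
  have hcard : ∀ ω ∈ Ω, Nat.card ω = Nat.card T := by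
    rintro _ ⟨g, rfl⟩
    exact (Nat.card_congr (T.equivMapOfInjective (MulAut.conj g).toMonoidHom
      (MulAut.conj g).injective).toEquiv).symm
  have hT1 : Nat.card T ≠ 1 := by
    intro h1
    exact hT.ne_bot (Subgroup.card_eq_one.1 h1)
  obtain ⟨r, hr, hrT, hrp⟩ : ∃ r : ℕ, r.Prime ∧ r ∣ Nat.card T ∧ (r = p ∨ ¬ p ∣ Nat.card T) := by
    by_cases hd : p ∣ Nat.card T
    · exact ⟨p, hp, hd, Or.inl rfl⟩
    · exact ⟨_, Nat.minFac_prime hT1, Nat.minFac_dvd _, Or.inr hd⟩
  have : Fact r.Prime := ⟨hr⟩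
  obtain ⟨σ, hσ1, hσ2⟩ := section_fix (Ω := Ω) (S := Syl r) hp ha hΩ1
    (fun ω R g hR => hR.cj g) (fun ω _ => Syl.exists r ω) (by
      intro ω hω hf
      refine fixed_sylow ha hf ?_
      rcases hrp with h1 | h1
      · exact Or.inl h1
      · right; rw [hcard ω hω]; exact h1)
  obtain ⟨τ, hτ1, hτ2⟩ := section_fix (Ω := Ω) (S := Syl r) hq hb hΩ1
    (fun ω R g hR => hR.cj g) (fun ω _ => Syl.exists r ω) (by
      rintro _ ⟨g, rfl⟩ hf
      exact absurd hf (hfpf g))
  obtain ⟨n, hn, hnn⟩ := sections_conj hΩ2 (S := Syl r) (fun ω R h => h.1)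
    (fun ω R R' h h' => h.conj h') τ σ hτ1 hσ1
  let K : Subgroup G :=
    { carrier := {g | ∀ ω ∈ Ω, σ (cj g ω) = cj g (σ ω)}
      one_mem' := by intro ω _; rw [cj_one, cj_one]
      mul_mem' := by
        intro g g' hg hg' ω hω
        rw [cj_mul, hg _ (hΩ1 ω hω g'), hg' ω hω, cj_mul]
      inv_mem' := by
        intro g hg ω hω
        have h1 := hg _ (hΩ1 ω hω g⁻¹)
        rw [cj_cj_inv] at h1
        rw [h1, cj_inv_cj] }
  have hKa : a ∈ K := fun ω hω => hσ2 ω hω
  have hNω : ∀ m ∈ N, ∀ ω ∈ Ω, cj m ω = ω := fun m hm ω hω => (hΩ2 ω hω).inv m hm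
  have hKb : n * b * n⁻¹ ∈ K := by
    intro ω hω
    have h1 : cj (n * b * n⁻¹) ω = cj b ω := by
      rw [cj_mul, cj_mul, hNω n⁻¹ (N.inv_mem hn) ω hω, hNω n hn _ (hΩ1 ω hω b)]
    rw [h1, cj_mul, cj_mul]
    have h2 : cj n⁻¹ (σ ω) = τ ω := by rw [← hnn ω hω, cj_inv_cj]
    rw [h2, ← hτ2 ω hω, hnn _ (hΩ1 ω hω b)]
  have hKtop : K = ⊤ := by
    rw [eq_top_iff, ← h 1 n⁻¹, Subgroup.closure_le]
    rintro x (rfl | rfl)
    · simpa using hKa
    · simpa using hKb
  have hTΩ : T ∈ Ω := ⟨1, cj_one T⟩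
  have hR := hσ1 T hTΩ
  have hR1 : σ T = T := by
    apply hTs
    · exact hR.ne_bot hrT
    · exact hR.1
    · intro t ht
      have h1 : t ∈ K := by rw [hKtop]; exact Subgroup.mem_top _
      have h2 := h1 T hTΩ
      rw [cj_self ht] at h2
      exact h2.symm
  have hTp : IsPGroup r T := by rw [← hR1]; exact hR.2.1
  have hnt : Nontrivial T := (Subgroup.nontrivial_iff_ne_bot T).2 hT.ne_bot
  have hc := hTp.center_nontrivial
  have hZ : (Subgroup.center T).map T.subtype = T := by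
    apply hTs
    · intro hb
      rw [Subgroup.map_eq_bot_iff_of_injective _ T.subtype_injective] at hb
      rw [hb] at hc
      exact (Subgroup.nontrivial_iff_ne_bot _).1 hc rfl
    · rintro x ⟨y, _, rfl⟩; exact y.2
    · intro t ht
      apply cj_eq_of_comm
      rintro x ⟨y, hy, rfl⟩
      have := (Subgroup.mem_center_iff.1 hy) ⟨t, ht⟩
      exact congrArg Subtype.val this
  obtain ⟨x, hx, y, hy, hxy⟩ := hTn
  apply hxy
  rw [← hZ] at hy
  obtain ⟨z, hz, rfl⟩ := hy
  have := (Subgroup.mem_center_iff.1 hz) ⟨x, hx⟩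
  exact congrArg Subtype.val this

/-- **Theorem A.** A non-abelian minimal normal subgroup of a finite group which is invariably
generated by elements of prime orders `p` and `q` is simple. -/
theorem simple_of_minimal_normal [Finite G] {p q : ℕ} (hp : p.Prime) (hq : q.Prime) {a b : G}
    (ha : a ^ p = 1) (hb : b ^ q = 1) (h : InvGen a b) {N : Subgroup G} (hN : N.Normal)
    (hmin : ∀ M : Subgroup G, M.Normal → M ≤ N → M ≠ ⊥ → M = N)
    (hna : ∃ x ∈ N, ∃ y ∈ N, x * y ≠ y * x) : IsSimpleGroup N := by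
  classical
  have hNne : N ≠ ⊥ := by
    rintro rfl
    obtain ⟨x, hx, y, hy, hxy⟩ := hna
    rw [Subgroup.mem_bot] at hx hy
    subst hx; subst hy
    exact hxy rfl
  have : Finite (Subgroup G) := inferInstance
  let A : Set (Subgroup G) := {K | K ≠ ⊥ ∧ K ≤ N ∧ ∀ n ∈ N, cj n K = K}
  have hA : A.Nonempty := ⟨N, hNne, le_rfl, fun n hn => cj_self hn⟩
  obtain ⟨T, hTA, hTmin⟩ := (Set.toFinite A).exists_minimal hA
  have hT : MinN N T :=
    { ne_bot := hTA.1
      le := hTA.2.1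
      inv := hTA.2.2
      min := by
        intro K h1 h2 h3
        exact le_antisymm h2 (hTmin ⟨h1, h2.trans hTA.2.1, h3⟩ h2) }
  -- `N` is generated by the conjugates of `T`
  have hgen : Subgroup.normalClosure (T : Set G) = N := by
    apply hmin
    · infer_instance
    · have := hN
      exact Subgroup.normalClosure_le_normal hT.le
    · intro hb
      apply hT.ne_bot
      rw [eq_bot_iff, ← hb]
      exact Subgroup.subset_normalClosure
  have hgen' : ∀ K : Subgroup G, (∀ g, cj g T ≤ K) → N ≤ K := by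
    intro K hK
    rw [← hgen]
    unfold Subgroup.normalClosure
    rw [Subgroup.closure_le]
    intro x hx
    rw [Group.mem_conjugatesOfSet_iff] at hx
    obtain ⟨t, ht, htx⟩ := hx
    obtain ⟨c, hc⟩ := isConj_iff.1 htx
    apply hK c
    rw [mem_cj, ← hc]
    have : c⁻¹ * (c * t * c⁻¹) * c = t := by group
    rw [this]
    exact ht
  have hTs : ∀ K : Subgroup G, K ≠ ⊥ → K ≤ T → (∀ t ∈ T, cj t K = K) → K = T := by
    intro K h1 h2 h3
    apply hT.min K h1 h2
    have h4 : N ≤ stab K := by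
      apply hgen'
      intro g x hx
      by_cases hg : cj g T = T
      · rw [hg] at hx
        exact h3 x hx
      · apply cj_eq_of_comm
        intro y hy
        exact (hT.cj hN g).comm hT hg hx (h2 hy)
    exact fun n hn => h4 hn
  have hTn : ∃ x ∈ T, ∃ y ∈ T, x * y ≠ y * x := by
    by_contra hcon
    push Not at hcon
    have h1 : N ≤ Subgroup.centralizer (T : Set G) := by
      apply hgen'
      intro g x hx
      rw [Subgroup.mem_centralizer_iff]
      intro y hy
      by_cases hg : cj g T = T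
      · rw [hg] at hx
        exact hcon y hy x hx
      · exact (hT.comm (hT.cj hN g) (Ne.symm hg) hy hx)
    have h2 : T ≤ N ⊓ Subgroup.centralizer (N : Set G) := by
      refine le_inf hT.le ?_
      intro x hx
      rw [Subgroup.mem_centralizer_iff]
      intro y hy
      exact ((Subgroup.mem_centralizer_iff.1 (h1 hy)) x hx).symm
    have hn := hN
    have h3 : N ⊓ Subgroup.centralizer (N : Set G) = N := by
      apply hmin
      · infer_instance
      · exact inf_le_left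
      · intro hb
        rw [hb] at h2
        exact hT.ne_bot (le_bot_iff.1 h2)
    obtain ⟨x, hx, y, hy, hxy⟩ := hna
    rw [← h3] at hy
    exact hxy ((Subgroup.mem_centralizer_iff.1 hy.2) x hx)
  -- all conjugates of `T` are `T`
  have hall : ∀ g, cj g T = T := by
    by_contra hcon
    push Not at hcon
    obtain ⟨g0, hg0⟩ := hcon
    by_cases hfa : ∃ g, cj a (cj g T) = cj g T
    · by_cases hfb : ∃ g, cj b (cj g T) = cj g T
      · obtain ⟨g, hg⟩ := hfa
        obtain ⟨g', hg'⟩ := hfb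
        have h1 : cj (g⁻¹ * a * g) T = T := by
          rw [cj_mul, cj_mul, hg, cj_inv_cj]
        have h2 : cj (g'⁻¹ * b * g') T = T := by
          rw [cj_mul, cj_mul, hg', cj_inv_cj]
        have h3 : stab T = ⊤ := by
          rw [eq_top_iff, ← h g g', Subgroup.closure_le]
          rintro x (rfl | rfl)
          · exact h1
          · exact h2
        apply hg0
        have : g0 ∈ stab T := by rw [h3]; exact Subgroup.mem_top _
        exact this
      · push Not at hfb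
        exact core hp hq ha hb h hN hT hTs hTn hfb
    · push Not at hfa
      exact core hq hp hb ha h.symm hN hT hTs hTn hfa
  have hTN : T = N := le_antisymm hT.le (hgen' T (fun g => (hall g).le))
  subst hTN
  have hnt : Nontrivial T := (Subgroup.nontrivial_iff_ne_bot T).2 hT.ne_bot
  refine ⟨fun M hM => ?_⟩
  by_cases hMb : M = ⊥
  · exact Or.inl hMb
  right
  have h1 : M.map T.subtype = T := by
    apply hTs
    · intro hb
      rw [Subgroup.map_eq_bot_iff_of_injective _ T.subtype_injective] at hb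
      exact hMb hb
    · rintro x ⟨y, _, rfl⟩; exact y.2
    · intro t ht
      ext x
      rw [mem_cj]
      constructor
      · rintro ⟨y, hy, hyx⟩
        refine ⟨⟨t, ht⟩ * y * ⟨t, ht⟩⁻¹, hM.conj_mem y hy _, ?_⟩
        have : (y : G) = t⁻¹ * x * t := hyx
        simp [this, mul_assoc]
      · rintro ⟨y, hy, rfl⟩
        refine ⟨⟨t, ht⟩⁻¹ * y * ⟨t, ht⟩, ?_, ?_⟩
        · have := hM.conj_mem y hy ⟨t, ht⟩⁻¹
          simpa using this
        · simp
  rw [eq_top_iff]
  intro x _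
  have hx : (x : G) ∈ M.map T.subtype := by rw [h1]; exact x.2
  obtain ⟨y, hy, hyx⟩ := hx
  have : y = x := Subtype.ext hyx
  rwa [← this]

end Pool.Agent.H61.IG
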