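import Pool.Agent.H61.IG.Chief

/-!
# Reduction to almost simple groups
-/

namespace Pool.Agent.H61.IG

variable {G : Type*} [Group G]

theorem InvGen.map {Q : Type*} [Group Q] {a b : G} (h : InvGen a b) (f : G →* Q)
    (hf : Function.Surjective f) : InvGen (f a) (f b) := by
  intro x y
  obtain ⟨g, rfl⟩ := hf x
  obtain ⟨k, rfl⟩ := hf y
  have h1 := h g k
  have h2 : ({(f g)⁻¹ * f a * f g, (f k)⁻¹ * f b * f k} : Set Q)
      = f '' {g⁻¹ * a * g, k⁻¹ * b * k} := by
    simp [Set.image_pair]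
  rw [h2, ← MonoidHom.map_closure, h1, ← MonoidHom.range_eq_map, MonoidHom.range_eq_top]
  exact hf

/-- a group generated by conjugates of one element and `1` is commutative -/
theorem comm_of_one_left {b : G} (h : InvGen 1 b) (x y : G) : x * y = y * x := by
  have h1 := h 1 1
  have h2 : Subgroup.closure ({1⁻¹ * 1 * 1, 1⁻¹ * b * 1} : Set G) ≤ Subgroup.zpowers b := by
    rw [Subgroup.closure_le]
    rintro z (rfl | rfl)
    · simp
    · simp
  rw [h1] at h2
  obtain ⟨i, rfl⟩ := h2 (Subgroup.mem_top x)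
  obtain ⟨j, rfl⟩ := h2 (Subgroup.mem_top y)
  exact zpow_mul_comm b i j

/-- **Reduction.** If a finite simple non-abelian group `S` embeds in a finite group `G` which is
invariably generated by elements of prime orders `p` and `q`, then some quotient `G ⧸ L` is almost
simple, is invariably generated by elements of orders `p` and `q`, and `S` embeds in its simple
socle. -/
theorem reduction [Finite G] {p q : ℕ} (hp : p.Prime) (hq : q.Prime) {a b : G}
    (ha : orderOf a = p) (hb : orderOf b = q) (h : InvGen a b) {S : Type*} [Group S]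
    [IsSimpleGroup S] (hS : ∃ x y : S, x * y ≠ y * x) (φ : S →* G) (hφ : Function.Injective φ) :
    ∃ (L : Subgroup G) (_ : L.Normal) (T : Subgroup (G ⧸ L)), T.Normal ∧ IsSimpleGroup T ∧
      (∃ x ∈ T, ∃ y ∈ T, x * y ≠ y * x) ∧ Subgroup.centralizer (T : Set (G ⧸ L)) = ⊥ ∧
      (∃ ψ : S →* T, Function.Injective ψ) ∧ orderOf (a : G ⧸ L) = p ∧
      orderOf (b : G ⧸ L) = q ∧ InvGen (a : G ⧸ L) (b : G ⧸ L) := by
  classical
  obtain ⟨s, t, hst⟩ := hS
  have : Finite (Subgroup G) := inferInstance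
  let A : Set (Subgroup G) := {L | L.Normal ∧ L ⊓ φ.range = ⊥}
  have hA : A.Nonempty := ⟨⊥, inferInstance, by simp⟩
  obtain ⟨L, ⟨hLn, hLS⟩, hLmax⟩ := (Set.toFinite A).exists_maximal hA
  have := hLn
  let π : G →* G ⧸ L := QuotientGroup.mk' L
  have hπ : Function.Surjective π := QuotientGroup.mk'_surjective L
  have hker : ∀ x : S, π (φ x) = 1 → x = 1 := by
    intro x hx
    have h1 : φ x ∈ L := (QuotientGroup.eq_one_iff _).1 hx
    have h2 : φ x ∈ L ⊓ φ.range := ⟨h1, ⟨x, rfl⟩⟩
    rw [hLS, Subgroup.mem_bot] at h2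
    exact hφ (by rw [h2, map_one])
  -- every nontrivial normal subgroup of the quotient contains the image of `S`
  have hcont : ∀ M : Subgroup (G ⧸ L), M.Normal → M ≠ ⊥ → ∀ x : S, π (φ x) ∈ M := by
    intro M hM hMb
    by_contra hcon
    push Not at hcon
    obtain ⟨x0, hx0⟩ := hcon
    have hMc : (M.comap π).Normal := hM.comap π
    have h1 : (M.comap π) ⊓ φ.range = ⊥ := by
      -- the preimage in `S` is normal
      have h2 : ((M.comap π).comap φ).Normal := hMc.comap φ
      rcases h2.eq_bot_or_eq_top with h3 | h3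
      · rw [eq_bot_iff]
        rintro y ⟨hy, ⟨x, rfl⟩⟩
        have : x ∈ (M.comap π).comap φ := hy
        rw [h3, Subgroup.mem_bot] at this
        rw [this, map_one]
        exact Subgroup.mem_bot.2 rfl
      · exfalso
        apply hx0
        have : x0 ∈ (M.comap π).comap φ := by rw [h3]; exact Subgroup.mem_top _
        exact this
    have h2 : L ≤ M.comap π := by
      intro x hx
      rw [Subgroup.mem_comap]
      have : π x = 1 := (QuotientGroup.eq_one_iff _).2 hx
      rw [this]
      exact M.one_mem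
    have h3 := hLmax ⟨hMc, h1⟩ h2
    apply hMb
    rw [eq_bot_iff]
    intro y hy
    obtain ⟨x, rfl⟩ := hπ y
    have h4 : x ∈ L := h3 hy
    exact Subgroup.mem_bot.2 ((QuotientGroup.eq_one_iff _).2 h4)
  -- the intersection of all nontrivial normal subgroups
  let N : Subgroup (G ⧸ L) := sInf {M | M.Normal ∧ M ≠ ⊥}
  have hNmem : ∀ x : S, π (φ x) ∈ N := by
    intro x
    rw [Subgroup.mem_sInf]
    rintro M ⟨hM, hMb⟩
    exact hcont M hM hMb x
  have hNn : N.Normal := by
    refine ⟨fun n hn g => ?_⟩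
    rw [Subgroup.mem_sInf] at hn ⊢
    rintro M ⟨hM, hMb⟩
    exact hM.conj_mem n (hn M ⟨hM, hMb⟩) g
  have hNmin : ∀ M : Subgroup (G ⧸ L), M.Normal → M ≤ N → M ≠ ⊥ → M = N := fun M hM hle hne =>
    le_antisymm hle (sInf_le ⟨hM, hne⟩)
  have hst' : π (φ s) * π (φ t) ≠ π (φ t) * π (φ s) := by
    intro he
    apply hst
    have h1 : π (φ (s * t * s⁻¹ * t⁻¹)) = 1 := by
      simp only [map_mul, map_inv, he]
      group
    have h2 := hker _ h1
    have h3 : s * t * s⁻¹ = t := by
      have := mul_eq_one_iff_eq_inv.1 h2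
      simpa using this
    have h4 := congrArg (· * s) h3
    simpa [mul_assoc] using h4
  have hna : ∃ x ∈ N, ∃ y ∈ N, x * y ≠ y * x := ⟨_, hNmem s, _, hNmem t, hst'⟩
  have hinv : InvGen (π a) (π b) := h.map π hπ
  have ha1 : (π a) ^ p = 1 := by rw [← map_pow, ← ha, pow_orderOf_eq_one, map_one]
  have hb1 : (π b) ^ q = 1 := by rw [← map_pow, ← hb, pow_orderOf_eq_one, map_one]
  have ha2 : π a ≠ 1 := by
    intro h1
    rw [h1] at hinv
    exact hst' (comm_of_one_left hinv _ _)
  have hb2 : π b ≠ 1 := by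
    intro h1
    rw [h1] at hinv
    exact hst' (comm_of_one_left hinv.symm _ _)
  have : Fact p.Prime := ⟨hp⟩
  have : Fact q.Prime := ⟨hq⟩
  refine ⟨L, hLn, N, hNn, simple_of_minimal_normal hp hq ha1 hb1 hinv hNn hNmin hna, hna, ?_, ?_,
    orderOf_eq_prime ha1 ha2, orderOf_eq_prime hb1 hb2, hinv⟩
  · by_contra hc
    have hcn : (Subgroup.centralizer (N : Set (G ⧸ L))).Normal := inferInstance
    have h1 := hcont _ hcn hc s
    rw [Subgroup.mem_centralizer_iff] at h1
    exact hst' (h1 _ (hNmem t)).symm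
  · refine ⟨(π.comp φ).codRestrict N hNmem, ?_⟩
    rw [injective_iff_map_eq_one]
    intro x hx
    apply hker
    exact congrArg Subtype.val hx

end Pool.Agent.H61.IG
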